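import Mathlib
import Pool.Agent.H771R2.Lander

set_option autoImplicit false

/-!
# The determinant test for incidence structures with an automorphism of prime order

A variant of `Pool.Agent.H771R2.Lander.test` in which the constant `lam` is replaced by a function
of the orbits.
-/

namespace Pool.Agent.H634R3.PPC

open AddMonoidAlgebra Pool.Agent.H771R2.Lander

theorem mat_mul' {q : ℕ} [NeZero q] {T : Type} [Fintype T] [DecidableEq T]
    (A : T × ZMod q → T × ZMod q → ℤ) (N : ℤ) (lam : T → T → ℤ)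
    (hA : ∀ x z, ∑ y, A x y * A z y = (if x = z then N else 0) + lam x.1 z.1)
    (hinv : ∀ (s t : T) (i j c : ZMod q), A (s, i + c) (t, j + c) = A (s, i) (t, j)) :
    mat A * (((mat A).map (st ℤ q)).transpose) =
      (N : AddMonoidAlgebra ℤ (ZMod q)) • (1 : Matrix T T (AddMonoidAlgebra ℤ (ZMod q))) +
      nm q • Matrix.of (fun s u => (lam s u : AddMonoidAlgebra ℤ (ZMod q))) := by
  funext s u
  have key : ∀ e : ZMod q, ∑ t : T, ∑ c' : ZMod q, A (s, 0) (t, e + c') * A (u, 0) (t, c') =
      (if s = u ∧ e = 0 then N else 0) + lam s u := by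
    intro e
    have h1 := hA (s, -e) (u, 0)
    rw [Fintype.sum_prod_type] at h1
    have h2 : ((s, -e) = (u, (0 : ZMod q))) ↔ (s = u ∧ e = 0) := by
      rw [Prod.mk.injEq, neg_eq_zero]
    simp only [h2] at h1
    rw [← h1]
    refine Finset.sum_congr rfl fun t _ => Finset.sum_congr rfl fun c' _ => ?_
    congr 1
    have := hinv s t (-e) c' e
    rw [neg_add_cancel, add_comm c' e] at this
    exact this
  have h3 : (mat A * (((mat A).map (st ℤ q)).transpose)) s u =
      ∑ e : ZMod q, single e ((if s = u ∧ e = 0 then N else 0) + lam s u) := by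
    rw [Matrix.mul_apply]
    simp only [Matrix.transpose_apply, Matrix.map_apply, mat, map_sum, st_single,
      Finset.sum_mul_sum, single_mul_single]
    have h4 : ∀ t : T, ∑ c : ZMod q, ∑ c' : ZMod q,
        single (c + -c') (A (s, 0) (t, c) * A (u, 0) (t, c')) =
        ∑ e : ZMod q, single e (∑ c' : ZMod q, A (s, 0) (t, e + c') * A (u, 0) (t, c')) := by
      intro t
      rw [Finset.sum_comm]
      have h5 : ∀ c' : ZMod q, ∑ c : ZMod q,
          (single (c + -c') (A (s, 0) (t, c) * A (u, 0) (t, c')) : AddMonoidAlgebra ℤ (ZMod q)) =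
          ∑ e : ZMod q, single e (A (s, 0) (t, e + c') * A (u, 0) (t, c')) := by
        intro c'
        rw [← Equiv.sum_comp (Equiv.addRight c')]
        refine Finset.sum_congr rfl fun e _ => ?_
        simp
      simp only [h5]
      rw [Finset.sum_comm]
      refine Finset.sum_congr rfl fun e _ => ?_
      rw [single_sum']
    simp only [h4]
    rw [Finset.sum_comm]
    refine Finset.sum_congr rfl fun e _ => ?_
    rw [← key e, single_sum']
  rw [h3]
  simp only [Matrix.add_apply, Matrix.smul_apply, Matrix.one_apply, Matrix.of_apply, smul_eq_mul,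
    single_add, Finset.sum_add_distrib]
  congr 1
  · by_cases hsu : s = u
    · simp only [hsu, true_and, if_true, mul_one]
      rw [Finset.sum_eq_single (0 : ZMod q)]
      · simp [intCast_def]
      · intro b _ hb
        simp [hb]
      · simp
    · simp [hsu]
  · unfold nm
    rw [Finset.sum_mul]
    refine Finset.sum_congr rfl fun e _ => ?_
    rw [intCast_def, single_mul_single]
    simp

theorem test' {q : ℕ} [NeZero q] (hq : 2 < q) {T : Type} [Fintype T] [DecidableEq T]
    (A : T × ZMod q → T × ZMod q → ℤ) (N : ℤ) (lam : T → T → ℤ)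
    (hA : ∀ x z, ∑ y, A x y * A z y = (if x = z then N else 0) + lam x.1 z.1)
    (hinv : ∀ (s t : T) (i j c : ZMod q), A (s, i + c) (t, j + c) = A (s, i) (t, j))
    (hT : Odd (Fintype.card T)) {r : ℕ} (hr : r.Prime) {j : ℕ} (hj : (r : ZMod q) ^ j = -1)
    {a : ℕ} (ha : Odd a) {u : ℤ} (hu : ¬ (r : ℤ) ∣ u) (hN : N = (r : ℤ) ^ a * u) : False := by
  obtain ⟨b, hb⟩ := det_mod (N : AddMonoidAlgebra ℤ (ZMod q)) (nm q)
    (Matrix.of (fun (s t : T) => (lam s t : AddMonoidAlgebra ℤ (ZMod q))))
  rw [← mat_mul' A N lam hA hinv, Matrix.det_mul, Matrix.det_transpose] at hb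
  have h1 : ((mat A).map (st ℤ q)).det = st ℤ q (mat A).det := by
    rw [RingHom.map_det]
    rfl
  rw [h1] at hb
  obtain ⟨s, hs⟩ : Odd (a * Fintype.card T) := ha.mul hT
  have hr' : Prime (r : ℤ) := Nat.prime_iff_prime_int.1 hr
  have hu' : ¬ (r : ℤ) ∣ u ^ Fintype.card T := fun h => hu (hr'.dvd_of_dvd_pow h)
  apply descent hr hq hj hu' s ((1 - single 1 1) * (mat A).det)
  have h2 : (1 - single 1 1) * (mat A).det * st ℤ q ((1 - single 1 1) * (mat A).det) =
      ff q * ((mat A).det * st ℤ q (mat A).det) := by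
    rw [map_mul, ff]
    ring
  rw [h2, hb, hN]
  have h3 : ff q * nm q = 0 := by
    rw [ff, mul_right_comm, one_sub_mul_nm, zero_mul]
  rw [mul_add, ← mul_assoc, h3, zero_mul, add_zero, ← hs, zsmul_eq_mul, pow_mul]
  push_cast
  ring

/-! ### free permutations of prime order -/

theorem free_decomp {X : Type} [Fintype X] {q : ℕ} (hq : q.Prime) (ρ : Equiv.Perm X)
    (hρ : ρ ^ q = 1) (hfree : ∀ x, ρ x ≠ x) :
    ∃ (T : Type) (_ : Fintype T) (_ : DecidableEq T) (e : T × ZMod q ≃ X),
      ∀ t i c, e (t, i + c) = (ρ ^ c.val) (e (t, i)) := by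
  classical
  have : NeZero q := ⟨hq.ne_zero⟩
  let S : Setoid X := Equiv.Perm.SameCycle.setoid ρ
  let T := Quotient S
  have hTfin : Fintype T := Fintype.ofFinite T
  let pw : ZMod q → Equiv.Perm X := fun i => ρ ^ i.val
  have hmod : ∀ k : ℕ, ρ ^ (k % q) = ρ ^ k := by
    intro k
    conv_rhs => rw [← Nat.mod_add_div k q, pow_add, pow_mul, hρ, one_pow, mul_one]
  have hpw : ∀ i c : ZMod q, pw (i + c) = pw i * pw c := by
    intro i c
    simp only [pw]
    rw [ZMod.val_add, hmod, pow_add]
  let φ : T × ZMod q → X := fun p => pw p.2 p.1.out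
  have hsc : ∀ (k : ℕ) (x : X), (⟦(ρ ^ k) x⟧ : T) = ⟦x⟧ := by
    intro k x
    apply Quotient.sound
    exact (Equiv.Perm.sameCycle_pow_left (f := ρ) (n := k)).2 (Equiv.Perm.SameCycle.refl ρ x)
  have hprime : ∀ (k : ℕ) (x : X), (ρ ^ k) x = x → q ∣ k := by
    intro k x hx
    by_contra hk
    have hc : Nat.Coprime k q := ((Nat.Prime.coprime_iff_not_dvd hq).2 hk).symm
    have h1 : (ρ ^ q) x = x := by rw [hρ]; rfl
    have hmin1 : Function.minimalPeriod ρ x ∣ k := by
      apply Function.IsPeriodicPt.minimalPeriod_dvd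
      unfold Function.IsPeriodicPt Function.IsFixedPt
      rw [← Equiv.Perm.coe_pow]
      exact hx
    have hmin2 : Function.minimalPeriod ρ x ∣ q := by
      apply Function.IsPeriodicPt.minimalPeriod_dvd
      unfold Function.IsPeriodicPt Function.IsFixedPt
      rw [← Equiv.Perm.coe_pow]
      exact h1
    have h2 : Function.minimalPeriod ρ x = 1 := Nat.eq_one_of_dvd_coprimes hc hmin1 hmin2
    rw [Function.minimalPeriod_eq_one_iff_isFixedPt] at h2
    exact hfree x h2
  have hφ : Function.Bijective φ := by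
    constructor
    · rintro ⟨t, i⟩ ⟨t', i'⟩ h
      simp only [φ, pw] at h
      have h1 : t = t' := by
        have e1 : (⟦(ρ ^ i.val) t.out⟧ : T) = t := (hsc i.val t.out).trans (Quotient.out_eq t)
        have e2 : (⟦(ρ ^ i'.val) t'.out⟧ : T) = t' := (hsc i'.val t'.out).trans (Quotient.out_eq t')
        rw [← e1, ← e2, h]
      subst h1
      have h2 : ∀ a b : ℕ, a ≤ b → b < q → (ρ ^ a) t.out = (ρ ^ b) t.out → a = b := by
        intro a b hab hb h3
        have h4 : (ρ ^ (b - a)) t.out = t.out := by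
          have h5 : (ρ ^ a) ((ρ ^ (b - a)) t.out) = (ρ ^ a) t.out := by
            rw [← Equiv.Perm.mul_apply, ← pow_add, Nat.add_sub_cancel' hab, h3]
          exact (ρ ^ a).injective h5
        have h6 := hprime _ _ h4
        have h7 : b - a = 0 := by
          by_contra h8
          have := Nat.le_of_dvd (by omega) h6
          omega
        omega
      have h3 : i.val = i'.val := by
        rcases le_total i.val i'.val with hle | hle
        · exact h2 _ _ hle (ZMod.val_lt i') h
        · exact (h2 _ _ hle (ZMod.val_lt i) h.symm).symm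
      rw [ZMod.val_injective q h3]
    · intro y
      have h1 : (⟦(⟦y⟧ : T).out⟧ : T) = ⟦y⟧ := Quotient.out_eq _
      have h2 : Equiv.Perm.SameCycle ρ ((⟦y⟧ : T).out) y := Quotient.exact h1
      obtain ⟨k, hk⟩ := h2.exists_nat_pow_eq
      refine ⟨(⟦y⟧, (k : ZMod q)), ?_⟩
      simp only [φ, pw]
      rw [ZMod.val_natCast, hmod, hk]
  refine ⟨T, hTfin, inferInstance, Equiv.ofBijective φ hφ, ?_⟩
  intro t i c
  simp only [Equiv.ofBijective_apply, φ]
  rw [add_comm, hpw]
  rfl

end Pool.Agent.H634R3.PPC
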