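import Mathlib
import Pool.Agent.H634R3.PPC.Test

set_option autoImplicit false

/-!
# The determinant test for orbit matrices
-/

namespace Pool.Agent.H634R3.PPC

open Finset MulAction

open Classical in
/-- symmetric designs -/
structure Des {P L : Type} [Fintype P] [Fintype L] (inc : P → L → Prop) (n la : ℕ) : Prop where
  row : ∀ x z : P, (univ.filter (fun l : L => inc x l ∧ inc z l)).card =
    (if x = z then n else 0) + la
  col : ∀ l m : L, (univ.filter (fun x : P => inc x l ∧ inc x m)).card =
    (if l = m then n else 0) + la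
  card : Fintype.card P = Fintype.card L
  npos : 0 < n

open Classical in
/-- A collineation has as many fixed points as fixed lines. -/
theorem Des.fixed {P L : Type} [Fintype P] [Fintype L] {inc : P → L → Prop} {n la : ℕ}
    (D : Des inc n la) (σ : Equiv.Perm P) (τ : Equiv.Perm L)
    (h : ∀ p l, inc (σ p) (τ l) ↔ inc p l) :
    (univ.filter (fun p => σ p = p)).card = (univ.filter (fun l => τ l = l)).card := by
  have h1 : ∑ p : P, (univ.filter (fun l : L => inc p l ∧ inc (σ p) l)).card =
      n * (univ.filter (fun p => σ p = p)).card + la * Fintype.card P := by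
    simp only [D.row]
    rw [sum_add_distrib, card_filter, mul_sum, sum_const, smul_eq_mul, card_univ,
      mul_comm (Fintype.card P)]
    congr 1
    refine sum_congr rfl fun p _ => ?_
    by_cases hp : σ p = p
    · simp [hp]
    · rw [if_neg (fun h => hp h.symm), if_neg hp, mul_zero]
  have h2 : ∑ l : L, (univ.filter (fun p : P => inc p l ∧ inc p (τ.symm l))).card =
      n * (univ.filter (fun l => τ l = l)).card + la * Fintype.card L := by
    simp only [D.col]
    rw [sum_add_distrib, card_filter, mul_sum, sum_const, smul_eq_mul, card_univ,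
      mul_comm (Fintype.card L)]
    congr 1
    refine sum_congr rfl fun l _ => ?_
    by_cases hl : τ l = l
    · rw [if_pos hl, if_pos, mul_one]
      rw [Equiv.eq_symm_apply, hl]
    · rw [if_neg hl, if_neg, mul_zero]
      rw [Equiv.eq_symm_apply]
      exact hl
  have h3 : ∑ p : P, (univ.filter (fun l : L => inc p l ∧ inc (σ p) l)).card =
      ∑ l : L, (univ.filter (fun p : P => inc p l ∧ inc p (τ.symm l))).card := by
    have e1 : ∀ p : P, (univ.filter (fun l : L => inc p l ∧ inc (σ p) l)).card =
        ∑ l : L, if inc p l ∧ inc (σ p) l then 1 else 0 := fun p => card_filter _ _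
    have e2 : ∀ l : L, (univ.filter (fun p : P => inc p l ∧ inc p (τ.symm l))).card =
        ∑ p : P, if inc p l ∧ inc p (τ.symm l) then 1 else 0 := fun l => card_filter _ _
    simp only [e1, e2]
    rw [sum_comm]
    refine sum_congr rfl fun l _ => sum_congr rfl fun p _ => ?_
    have : inc (σ p) l ↔ inc p (τ.symm l) := by
      conv_lhs => rw [← τ.apply_symm_apply l]
      exact h p _
    rw [this]
  rw [h1, h2, D.card] at h3
  have h5 := Nat.add_right_cancel h3
  exact Nat.eq_of_mul_eq_mul_left D.npos h5

section bar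

variable {G : Type} [Group G] {X : Type} [MulAction G X] (H : Subgroup G)

/-- the `H`-orbit of a point, as an element of the set of orbits -/
def cls (x : X) : orbitRel.Quotient H X := Quotient.mk _ x

theorem cls_eq {x y : X} : cls H x = cls H y ↔ ∃ h ∈ H, h • y = x := by
  unfold cls
  rw [Quotient.eq]
  show x ∈ orbit H y ↔ _
  constructor
  · rintro ⟨h, hh⟩
    exact ⟨h.1, h.2, hh⟩
  · rintro ⟨h, hh, hx⟩
    exact ⟨⟨h, hh⟩, hx⟩

theorem cls_smul {h : G} (hh : h ∈ H) (x : X) : cls H (h • x) = cls H x :=
  (cls_eq H).2 ⟨h, hh, rfl⟩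

theorem cls_surj (α : orbitRel.Quotient H X) : ∃ x, cls H x = α := Quotient.exists_rep α

theorem cls_smul_congr {g : G} (hg : ∀ h ∈ H, g * h * g⁻¹ ∈ H) {x y : X} (h : cls H x = cls H y) :
    cls H (g • x) = cls H (g • y) := by
  obtain ⟨k, hk, rfl⟩ := (cls_eq H).1 h
  refine (cls_eq H).2 ⟨g * k * g⁻¹, hg k hk, ?_⟩
  rw [smul_smul, smul_smul]
  congr 1
  group

/-- `g` normalises `H` -/
def Nrm (g : G) : Prop := (∀ h ∈ H, g * h * g⁻¹ ∈ H) ∧ (∀ h ∈ H, g⁻¹ * h * g ∈ H)

theorem Nrm.inv {g : G} (hg : Nrm H g) : Nrm H g⁻¹ := by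
  refine ⟨fun h hh => ?_, fun h hh => ?_⟩
  · rw [inv_inv]; exact hg.2 h hh
  · rw [inv_inv]; exact hg.1 h hh

/-- the permutation of the orbits induced by `g` -/
def bar {g : G} (hg : Nrm H g) : Equiv.Perm (orbitRel.Quotient H X) where
  toFun := Quotient.lift (fun x => cls H (g • x))
    (fun _ _ h => cls_smul_congr H hg.1 (Quotient.sound h))
  invFun := Quotient.lift (fun x => cls H (g⁻¹ • x))
    (fun _ _ h => cls_smul_congr H hg.inv.1 (Quotient.sound h))
  left_inv := by
    intro α
    obtain ⟨x, rfl⟩ := cls_surj H α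
    show cls H (g⁻¹ • g • x) = cls H x
    rw [inv_smul_smul]
  right_inv := by
    intro α
    obtain ⟨x, rfl⟩ := cls_surj H α
    show cls H (g • g⁻¹ • x) = cls H x
    rw [smul_inv_smul]

theorem bar_cls {g : G} (hg : Nrm H g) (x : X) : bar H hg (cls H x) = cls H (g • x) := rfl

theorem bar_pow_cls {g : G} (hg : Nrm H g) (k : ℕ) (x : X) :
    (bar H hg ^ k) (cls H x) = cls H (g ^ k • x) := by
  induction k with
  | zero => simp
  | succ k ih => rw [pow_succ', Equiv.Perm.mul_apply, ih, bar_cls, smul_smul, ← pow_succ']

end bar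

section incid

variable {G : Type} [Group G] {P L : Type} [Fintype P] [Fintype L] [MulAction G P] [MulAction G L]
  {inc : P → L → Prop}

open Classical in
/-- lines of the class `β` through `x` -/
noncomputable def aa (inc : P → L → Prop) (H : Subgroup G) (x : P) (β : orbitRel.Quotient H L) : ℕ :=
  (univ.filter (fun l : L => cls H l = β ∧ inc x l)).card

open Classical in
/-- points of the class `α` on `l` -/
noncomputable def bb (inc : P → L → Prop) (H : Subgroup G) (α : orbitRel.Quotient H P) (l : L) : ℕ :=
  (univ.filter (fun x : P => cls H x = α ∧ inc x l)).card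

open Classical in
/-- size of a class -/
noncomputable def sz (H : Subgroup G) {X : Type} [Fintype X] [MulAction G X]
    (α : orbitRel.Quotient H X) : ℕ := (univ.filter (fun x : X => cls H x = α)).card

variable (hinc : ∀ (g : G) (p : P) (l : L), inc (g • p) (g • l) ↔ inc p l)

include hinc

open Classical in
theorem aa_smul (H : Subgroup G) {g : G} (hg : Nrm H g) (x : P) (β : orbitRel.Quotient H L) :
    aa inc H (g • x) (bar H hg β) = aa inc H x β := by
  unfold aa
  symm
  apply card_bij (fun l _ => g • l)
  · intro l hl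
    rw [mem_filter] at hl ⊢
    exact ⟨mem_univ _, by rw [← hl.2.1]; rfl, (hinc g x l).2 hl.2.2⟩
  · intro l _ l' _ h
    exact (MulAction.injective g) h
  · intro l hl
    rw [mem_filter] at hl
    refine ⟨g⁻¹ • l, ?_, smul_inv_smul g l⟩
    rw [mem_filter]
    refine ⟨mem_univ _, ?_, ?_⟩
    · apply (bar H hg).injective
      rw [bar_cls, smul_inv_smul]
      exact hl.2.1
    · rw [← hinc g, smul_inv_smul]
      exact hl.2.2

open Classical in
theorem bb_smul (H : Subgroup G) {g : G} (hg : Nrm H g) (α : orbitRel.Quotient H P) (l : L) :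
    bb inc H (bar H hg α) (g • l) = bb inc H α l := by
  unfold bb
  symm
  apply card_bij (fun x _ => g • x)
  · intro x hx
    rw [mem_filter] at hx ⊢
    exact ⟨mem_univ _, by rw [← hx.2.1]; rfl, (hinc g x l).2 hx.2.2⟩
  · intro l _ l' _ h
    exact (MulAction.injective g) h
  · intro x hx
    rw [mem_filter] at hx
    refine ⟨g⁻¹ • x, ?_, smul_inv_smul g x⟩
    rw [mem_filter]
    refine ⟨mem_univ _, ?_, ?_⟩
    · apply (bar H hg).injective
      rw [bar_cls, smul_inv_smul]
      exact hx.2.1
    · rw [← hinc g, smul_inv_smul]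
      exact hx.2.2

omit hinc in
theorem nrm_of_mem {H : Subgroup G} {h : G} (hh : h ∈ H) : Nrm H h :=
  ⟨fun _ hk => H.mul_mem (H.mul_mem hh hk) (H.inv_mem hh),
    fun _ hk => H.mul_mem (H.mul_mem (H.inv_mem hh) hk) hh⟩

omit hinc in
theorem bar_of_mem {X : Type} [MulAction G X] {H : Subgroup G} {h : G} (hh : h ∈ H)
    (α : orbitRel.Quotient H X) : bar H (nrm_of_mem hh) α = α := by
  obtain ⟨x, rfl⟩ := cls_surj H α
  rw [bar_cls, cls_smul H hh]

theorem aa_congr (H : Subgroup G) {x y : P} (h : cls H x = cls H y) (β : orbitRel.Quotient H L) :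
    aa inc H x β = aa inc H y β := by
  obtain ⟨k, hk, rfl⟩ := (cls_eq H).1 h
  conv_lhs => rw [← bar_of_mem hk β]
  exact aa_smul hinc H (nrm_of_mem hk) y β

theorem bb_congr (H : Subgroup G) {l m : L} (h : cls H l = cls H m) (α : orbitRel.Quotient H P) :
    bb inc H α l = bb inc H α m := by
  obtain ⟨k, hk, rfl⟩ := (cls_eq H).1 h
  conv_lhs => rw [← bar_of_mem hk α]
  exact bb_smul hinc H (nrm_of_mem hk) α m

open Classical in
/-- double counting of the incident pairs in two classes -/
theorem sz_aa (H : Subgroup G) (x : P) (l : L) :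
    sz H (cls H x) * aa inc H x (cls H l) = sz H (cls H l) * bb inc H (cls H x) l := by
  have h1 : ∑ y ∈ univ.filter (fun y : P => cls H y = cls H x), aa inc H y (cls H l) =
      sz H (cls H x) * aa inc H x (cls H l) := by
    rw [sum_congr rfl (fun y hy => aa_congr hinc H (mem_filter.1 hy).2 (cls H l)), sum_const,
      smul_eq_mul]
    rfl
  have h2 : ∑ m ∈ univ.filter (fun m : L => cls H m = cls H l), bb inc H (cls H x) m =
      sz H (cls H l) * bb inc H (cls H x) l := by
    rw [sum_congr rfl (fun y hy => bb_congr hinc H (mem_filter.1 hy).2 (cls H x)), sum_const,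
      smul_eq_mul]
    rfl
  rw [← h1, ← h2]
  unfold aa bb
  simp only [card_filter]
  rw [sum_filter, sum_filter]
  have e1 : ∀ y : P, (if cls H y = cls H x then
      ∑ m : L, (if cls H m = cls H l ∧ inc y m then 1 else 0) else 0) =
      ∑ m : L, (if cls H y = cls H x ∧ cls H m = cls H l ∧ inc y m then 1 else 0) := by
    intro y
    by_cases h : cls H y = cls H x
    · simp [h]
    · simp [h]
  have e2 : ∀ m : L, (if cls H m = cls H l then
      ∑ y : P, (if cls H y = cls H x ∧ inc y m then 1 else 0) else 0) =
      ∑ y : P, (if cls H y = cls H x ∧ cls H m = cls H l ∧ inc y m then 1 else 0) := by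
    intro m
    by_cases h : cls H m = cls H l
    · simp [h]
    · simp [h]
  rw [sum_congr rfl (fun y _ => e1 y), sum_congr rfl (fun m _ => e2 m), sum_comm]

omit hinc in
theorem cls_out {X : Type} [MulAction G X] (H : Subgroup G) (β : orbitRel.Quotient H X) :
    cls H β.out = β := Quotient.out_eq β

open Classical in
omit [Fintype P] in
/-- a class-invariant function summed over the lines through a point -/
theorem sum_inc (H : Subgroup G) (x : P) (F : L → ℕ)
    (hF : ∀ l m : L, cls H l = cls H m → F l = F m) :
    ∑ l ∈ univ.filter (fun l : L => inc x l), F l =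
      ∑ β : orbitRel.Quotient H L, aa inc H x β * F β.out := by
  rw [← sum_fiberwise (univ.filter (fun l : L => inc x l)) (fun l => cls H l)]
  refine sum_congr rfl fun β _ => ?_
  rw [sum_congr rfl (fun l hl => hF l β.out (by
    rw [(mem_filter.1 hl).2, cls_out])), sum_const, smul_eq_mul]
  congr 1
  unfold aa
  rw [filter_filter]
  congr 1
  ext l
  simp only [mem_filter, mem_univ, true_and]
  tauto

open Classical in
theorem row_rel {n la : ℕ} (D : Des inc n la) (H : Subgroup G) (x : P)
    (γ : orbitRel.Quotient H P) :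
    ∑ β : orbitRel.Quotient H L, aa inc H x β * bb inc H γ β.out =
      (if cls H x = γ then n else 0) + la * sz H γ := by
  rw [← sum_inc hinc H x (fun l => bb inc H γ l) (fun l m h => bb_congr hinc H h γ)]
  unfold bb
  simp only [card_filter]
  rw [sum_comm]
  have e1 : ∀ z : P, ∑ l ∈ univ.filter (fun l : L => inc x l),
      (if cls H z = γ ∧ inc z l then 1 else 0) =
      if cls H z = γ then ((if x = z then n else 0) + la) else 0 := by
    intro z
    by_cases h : cls H z = γ
    · rw [if_pos h, ← D.row x z, ← card_filter, filter_filter]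
      congr 1
      ext l
      simp [h]
    · simp [h]
  rw [sum_congr rfl (fun z _ => e1 z), ← sum_filter, sum_add_distrib, sum_const, smul_eq_mul,
    sum_ite_eq]
  congr 1
  · simp only [mem_filter, mem_univ, true_and]
  · unfold sz
    rw [mul_comm]

end incid

section burnside

variable {G : Type} [Group G] [Fintype G] {X : Type} [Fintype X] [MulAction G X]

open Classical in
/-- number of elements of `H` mapping `x` to `y` -/
noncomputable def tc (H : Subgroup G) (x y : X) : ℕ :=
  (univ.filter (fun h : G => h ∈ H ∧ h • x = y)).card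

open Classical in
theorem tc_congr (H : Subgroup G) (x : X) {y z : X} (h : cls H y = cls H z) :
    tc H x y = tc H x z := by
  obtain ⟨k, hk, rfl⟩ := (cls_eq H).1 h
  unfold tc
  symm
  apply card_bij (fun h _ => k * h)
  · intro h hh
    rw [mem_filter] at hh ⊢
    exact ⟨mem_univ _, H.mul_mem hk hh.2.1, by rw [mul_smul, hh.2.2]⟩
  · intro a _ b _ hab
    exact mul_left_cancel hab
  · intro h hh
    rw [mem_filter] at hh
    refine ⟨k⁻¹ * h, ?_, by group⟩
    rw [mem_filter]
    exact ⟨mem_univ _, H.mul_mem (H.inv_mem hk) hh.2.1, by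
      rw [mul_smul, hh.2.2, inv_smul_smul]⟩

open Classical in
theorem tc_mul (H : Subgroup G) {x y : X} (h : cls H y = cls H x) :
    sz H (cls H x) * tc H x y = (univ.filter (fun h : G => h ∈ H)).card := by
  have h1 : ∑ z ∈ univ.filter (fun z : X => cls H z = cls H x), tc H x z =
      sz H (cls H x) * tc H x y := by
    rw [sum_congr rfl (fun z hz => tc_congr H x (((mem_filter.1 hz).2).trans h.symm)), sum_const,
      smul_eq_mul]
    rfl
  rw [← h1, card_eq_sum_card_fiberwise (f := fun h : G => h • x)
    (t := univ.filter (fun z : X => cls H z = cls H x))]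
  · refine sum_congr rfl fun z _ => ?_
    unfold tc
    rw [filter_filter]
  · intro h hh
    rw [mem_coe, mem_filter] at hh
    rw [mem_coe, mem_filter]
    exact ⟨mem_univ _, cls_smul H hh.2 x⟩

open Classical in
/-- number of fixed points on a coset -/
theorem coset_burnside (H : Subgroup G) {g : G} (hg : Nrm H g) :
    ∑ h ∈ univ.filter (fun h : G => h ∈ H), (univ.filter (fun x : X => (g * h) • x = x)).card =
      (univ.filter (fun h : G => h ∈ H)).card *
        (univ.filter (fun α : orbitRel.Quotient H X => bar H hg α = α)).card := by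
  simp only [card_filter (p := fun x : X => _)]
  rw [sum_comm]
  have e1 : ∀ x : X, ∑ h ∈ univ.filter (fun h : G => h ∈ H), (if (g * h) • x = x then 1 else 0) =
      tc H x (g⁻¹ • x) := by
    intro x
    rw [← card_filter, filter_filter]
    unfold tc
    congr 1
    ext h
    simp only [mem_filter, mem_univ, true_and, and_congr_right_iff]
    intro _
    rw [mul_smul, eq_inv_smul_iff]
  have e2 : (univ.filter (fun α : orbitRel.Quotient H X => bar H hg α = α)).card =
      ∑ α : orbitRel.Quotient H X, if bar H hg α = α then 1 else 0 := card_filter _ _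
  rw [sum_congr rfl (fun x _ => e1 x), ← sum_fiberwise univ (fun x => cls H x), e2, mul_sum]
  refine sum_congr rfl fun α _ => ?_
  have hbar : ∀ i : X, cls H i = α → (cls H (g⁻¹ • i) = cls H i ↔ bar H hg α = α) := by
    rintro i rfl
    constructor
    · intro h
      have h1 := congrArg (bar H hg) h
      rw [bar_cls, smul_inv_smul] at h1
      exact h1.symm
    · intro h
      apply (bar H hg).injective
      rw [h, bar_cls, smul_inv_smul]
  by_cases hα : bar H hg α = α
  · rw [if_pos hα, mul_one]
    obtain ⟨x0, hx0⟩ := cls_surj H α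
    have hpos : 0 < sz H α := by
      unfold sz
      rw [card_pos]
      exact ⟨x0, by rw [mem_filter]; exact ⟨mem_univ _, hx0⟩⟩
    apply Nat.eq_of_mul_eq_mul_left hpos
    rw [mul_sum]
    have e3 : ∀ i ∈ univ.filter (fun i : X => cls H i = α), sz H α * tc H i (g⁻¹ • i) =
        (univ.filter (fun h : G => h ∈ H)).card := by
      intro i hi
      have h1 := (mem_filter.1 hi).2
      have h2 := tc_mul H ((hbar i h1).2 hα)
      rw [h1] at h2
      exact h2
    rw [sum_congr rfl e3, sum_const, smul_eq_mul]
    rfl
  · rw [if_neg hα, mul_zero]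
    apply sum_eq_zero
    intro i hi
    have h1 := (mem_filter.1 hi).2
    unfold tc
    rw [card_eq_zero, filter_eq_empty_iff]
    rintro h _ ⟨hh, h2⟩
    apply hα
    rw [← hbar i h1]
    rw [← h2]
    exact cls_smul H hh i

end burnside

section fixeq

variable {G : Type} [Group G] [Fintype G] {P L : Type} [Fintype P] [Fintype L] [MulAction G P]
  [MulAction G L] {inc : P → L → Prop}

open Classical in
/-- as many fixed classes of points as of lines -/
theorem card_fixed_classes {n la : ℕ} (D : Des inc n la)
    (hinc : ∀ (g : G) (p : P) (l : L), inc (g • p) (g • l) ↔ inc p l) (H : Subgroup G) {g : G}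
    (hg : Nrm H g) :
    (univ.filter (fun α : orbitRel.Quotient H P => bar H hg α = α)).card =
      (univ.filter (fun α : orbitRel.Quotient H L => bar H hg α = α)).card := by
  have h1 := coset_burnside (X := P) H hg
  have h2 := coset_burnside (X := L) H hg
  have h3 : ∀ h : G, (univ.filter (fun x : P => (g * h) • x = x)).card =
      (univ.filter (fun x : L => (g * h) • x = x)).card := fun h =>
    D.fixed (MulAction.toPerm (g * h)) (MulAction.toPerm (g * h)) (fun p l => hinc _ p l)
  simp only [h3] at h1
  have hpos : 0 < (univ.filter (fun h : G => h ∈ H)).card := by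
    rw [card_pos]
    exact ⟨1, by rw [mem_filter]; exact ⟨mem_univ _, H.one_mem⟩⟩
  exact Nat.eq_of_mul_eq_mul_left hpos (h1.symm.trans h2)

open Classical in
theorem card_classes {n la : ℕ} (D : Des inc n la)
    (hinc : ∀ (g : G) (p : P) (l : L), inc (g • p) (g • l) ↔ inc p l) (H : Subgroup G) :
    Fintype.card (orbitRel.Quotient H P) = Fintype.card (orbitRel.Quotient H L) := by
  have h := card_fixed_classes D hinc H (nrm_of_mem H.one_mem)
  rw [filter_true_of_mem (fun α _ => bar_of_mem H.one_mem α),
    filter_true_of_mem (fun α _ => bar_of_mem H.one_mem α)] at h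
  exact h

end fixeq

end Pool.Agent.H634R3.PPC
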