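import Mathlib
import Pool.Agent.H634R3.PPC.OrbTest

set_option autoImplicit false

/-!
# Group theory for the solvable point-transitive case
-/

namespace Pool.Agent.H634R3.PPC

open Finset MulAction

section abelian

theorem ab_hall {B : Type} [CommGroup B] [Finite B] {q r' : ℕ} (hq : q.Prime)
    (hc : Nat.Coprime q r') (hB : Nat.card B = q * r') :
    Nat.card (powMonoidHom r' : B →* B).range = q := by
  have hF : Fact q.Prime := ⟨hq⟩
  have h1 : IsPGroup q (powMonoidHom r' : B →* B).range := by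
    rintro ⟨b, c, rfl⟩
    refine ⟨1, ?_⟩
    apply Subtype.ext
    show ((powMonoidHom r') c) ^ (q ^ 1) = 1
    rw [powMonoidHom_apply, pow_one, ← pow_mul, mul_comm, ← hB]
    exact pow_card_eq_one'
  obtain ⟨k, hk⟩ := h1.exists_card_eq
  have h2 : Nat.card (powMonoidHom r' : B →* B).range ∣ q * r' := by
    rw [← hB]
    exact Subgroup.card_subgroup_dvd_card _
  have h3 : Nat.card (powMonoidHom r' : B →* B).range ∣ q := by
    rw [hk] at h2 ⊢
    exact (Nat.Coprime.pow_left k hc).dvd_of_dvd_mul_right h2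
  rcases (Nat.dvd_prime hq).1 h3 with h4 | h4
  · exfalso
    obtain ⟨b, hb⟩ := exists_prime_orderOf_dvd_card' q (G := B) (by rw [hB]; exact dvd_mul_right _ _)
    have h5 : (⟨b ^ r', b, rfl⟩ : (powMonoidHom r' : B →* B).range) = 1 := by
      have : Subsingleton (powMonoidHom r' : B →* B).range := by
        rw [Nat.card_eq_one_iff_unique] at h4
        exact h4.1
      exact Subsingleton.elim _ _
    have h6 : b ^ r' = 1 := congrArg Subtype.val h5
    have h7 : q ∣ r' := hb ▸ orderOf_dvd_of_pow_eq_one h6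
    have h8 : q ∣ 1 := by
      rw [← Nat.Coprime.gcd_eq_one hc]
      exact Nat.dvd_gcd dvd_rfl h7
    exact hq.one_lt.ne' (Nat.dvd_one.1 h8)
  · exact h4

theorem ab_index {A : Type} [CommGroup A] [Finite A] (K : Subgroup A) {q r' : ℕ} (hq : q.Prime)
    (hc : Nat.Coprime q r') (hK : K.index = q * r') :
    (K.comap (powMonoidHom r')).index = q := by
  have h1 : K.comap (powMonoidHom r') =
      ((powMonoidHom r' : (A ⧸ K) →* (A ⧸ K)).comp (QuotientGroup.mk' K)).ker := by
    ext a
    rw [Subgroup.mem_comap, MonoidHom.mem_ker, MonoidHom.comp_apply, powMonoidHom_apply,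
      powMonoidHom_apply, ← map_pow, QuotientGroup.mk'_apply, QuotientGroup.eq_one_iff]
  rw [h1, Subgroup.index_ker, MonoidHom.range_comp,
    MonoidHom.range_eq_top.2 (QuotientGroup.mk'_surjective K), ← MonoidHom.range_eq_map]
  exact ab_hall hq hc hK

theorem ab_iff {A : Type} [CommGroup A] [Finite A] (K H : Subgroup A) {q r' : ℕ} (hq : q.Prime)
    (hc : Nat.Coprime q r') (hK : K.index = q * r') (hH : H.index = q) :
    K ≤ H ↔ K.comap (powMonoidHom r') = H := by
  constructor
  · intro h
    have h1 : K.comap (powMonoidHom r') ≤ H := by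
      intro b hb
      rw [Subgroup.mem_comap, powMonoidHom_apply] at hb
      have h2 : b ^ r' ∈ H := h hb
      have h3 : b ^ q ∈ H := by
        rw [← QuotientGroup.eq_one_iff, QuotientGroup.mk_pow, ← hH]
        exact pow_card_eq_one'
      have h4 : (b : A ⧸ H) ^ q = 1 := by
        rw [← QuotientGroup.mk_pow, QuotientGroup.eq_one_iff]; exact h3
      have h5 : (b : A ⧸ H) ^ r' = 1 := by
        rw [← QuotientGroup.mk_pow, QuotientGroup.eq_one_iff]; exact h2
      rw [← QuotientGroup.eq_one_iff]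
      have h6 := orderOf_dvd_of_pow_eq_one h4
      have h7 := orderOf_dvd_of_pow_eq_one h5
      have h8 := Nat.dvd_gcd h6 h7
      rw [Nat.Coprime.gcd_eq_one hc, Nat.dvd_one, orderOf_eq_one_iff] at h8
      exact h8
    have h9 := ab_index K hq hc hK
    have h10 := Subgroup.relIndex_mul_index h1
    rw [h9, hH] at h10
    have h11 : (K.comap (powMonoidHom r')).relIndex H = 1 :=
      Nat.eq_of_mul_eq_mul_right hq.pos (by rw [h10, one_mul])
    exact le_antisymm h1 (Subgroup.relIndex_eq_one.1 h11)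
  · rintro rfl
    intro k hk
    rw [Subgroup.mem_comap, powMonoidHom_apply]
    exact K.pow_mem hk r'

end abelian

section size

variable {G : Type} [Group G] [Fintype G] {X : Type} [Fintype X] [MulAction G X]

open Classical in
theorem sz_relIndex (K : Subgroup G) (x : X) :
    sz K (cls K x) = (stabilizer G x).relIndex K := by
  have h1 := tc_mul K (rfl : cls K x = cls K x)
  have h2 : (univ.filter (fun h : G => h ∈ K)).card = Nat.card K := by
    rw [Nat.card_eq_fintype_card, Fintype.card_subtype]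
  have h3 : Nat.card ((stabilizer G x).subgroupOf K) = tc K x x := by
    have e : (stabilizer G x).subgroupOf K ≃ {h : G // h ∈ K ∧ h • x = x} :=
      { toFun := fun k => ⟨k.1.1, k.1.2, mem_stabilizer_iff.1 (Subgroup.mem_subgroupOf.1 k.2)⟩
        invFun := fun h => ⟨⟨h.1, h.2.1⟩, Subgroup.mem_subgroupOf.2 (mem_stabilizer_iff.2 h.2.2)⟩
        left_inv := fun _ => rfl
        right_inv := fun _ => rfl }
    rw [Nat.card_congr e, Nat.card_eq_fintype_card, Fintype.card_subtype]
    rfl
  have h4 := Subgroup.index_mul_card ((stabilizer G x).subgroupOf K)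
  rw [h3, ← h2, ← h1] at h4
  have hpos : 0 < tc K x x := by
    unfold tc
    rw [card_pos]
    exact ⟨1, by rw [mem_filter]; exact ⟨mem_univ _, K.one_mem, one_smul _ _⟩⟩
  exact (Nat.eq_of_mul_eq_mul_right hpos h4).symm

open Classical in
theorem sz_bar (K : Subgroup G) {g : G} (hg : Nrm K g) (α : orbitRel.Quotient K X) :
    sz K (bar K hg α) = sz K α := by
  unfold sz
  symm
  apply card_bij (fun x _ => g • x)
  · intro x hx
    rw [mem_filter] at hx ⊢
    exact ⟨mem_univ _, by rw [← hx.2]; rfl⟩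
  · intro l _ l' _ h
    exact (MulAction.injective g) h
  · intro x hx
    rw [mem_filter] at hx
    refine ⟨g⁻¹ • x, ?_, smul_inv_smul g x⟩
    rw [mem_filter]
    refine ⟨mem_univ _, ?_⟩
    apply (bar K hg).injective
    rw [bar_cls, smul_inv_smul]
    exact hx.2

theorem nrm_of_normal (K : Subgroup G) [hK : K.Normal] (g : G) : Nrm K g :=
  ⟨fun h hh => hK.conj_mem h hh g, fun h hh => by
    have := hK.conj_mem h hh g⁻¹
    rwa [inv_inv] at this⟩

/-- in a transitive group all orbits of a normal subgroup have the same size -/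
theorem sz_const (K : Subgroup G) [K.Normal] (htr : ∀ x y : X, ∃ g : G, g • x = y)
    (α β : orbitRel.Quotient K X) : sz K α = sz K β := by
  obtain ⟨x, rfl⟩ := cls_surj K α
  obtain ⟨y, rfl⟩ := cls_surj K β
  obtain ⟨g, rfl⟩ := htr x y
  rw [← bar_cls K (nrm_of_normal K g), sz_bar]

open Classical in
theorem sum_sz (K : Subgroup G) : ∑ α : orbitRel.Quotient K X, sz K α = Fintype.card X := by
  rw [← card_univ, card_eq_sum_card_fiberwise (f := fun x : X => cls K x)
    (t := (univ : Finset (orbitRel.Quotient K X))) (fun x _ => mem_coe.2 (mem_univ _))]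
  rfl

open Classical in
theorem sz_mul (K : Subgroup G) [K.Normal] (htr : ∀ x y : X, ∃ g : G, g • x = y)
    (α : orbitRel.Quotient K X) :
    Fintype.card (orbitRel.Quotient K X) * sz K α = Fintype.card X := by
  classical
  have h1 : ∑ β : orbitRel.Quotient K X, sz K β = ∑ _β : orbitRel.Quotient K X, sz K α :=
    sum_congr rfl (fun β _ => sz_const K htr β α)
  have h2 := sum_sz (X := X) K
  rw [h1, sum_const, smul_eq_mul, card_univ] at h2
  exact h2

/-- orbits of a normal subgroup `H` of prime index in `M`: the ones moved by an element outside -/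
theorem moved_iff {M H : Subgroup G} {q : ℕ} (hq : q.Prime) (hHM : H ≤ M)
    (hidx : H.relIndex M = q) (hn : ∀ g ∈ M, Nrm H g) {g0 : G} (hg0 : g0 ∈ M) (hg0' : g0 ∉ H)
    (x : X) : cls H (g0 • x) ≠ cls H x ↔ stabilizer G x ⊓ M ≤ H := by
  constructor
  · intro h
    by_contra hcon
    rw [SetLike.not_le_iff_exists] at hcon
    obtain ⟨s, hs, hsH⟩ := hcon
    rw [Subgroup.mem_inf, mem_stabilizer_iff] at hs
    apply h
    have hnorm : (H.subgroupOf M).Normal := by
      refine ⟨fun n hn' g => ?_⟩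
      rw [Subgroup.mem_subgroupOf] at hn' ⊢
      exact (hn g.1 g.2).1 n.1 hn'
    have hF : Fact q.Prime := ⟨hq⟩
    have hcard : Nat.card (M ⧸ H.subgroupOf M) = q := hidx
    have hs1 : ((⟨s, hs.2⟩ : M) : M ⧸ H.subgroupOf M) ≠ 1 := by
      intro h1
      rw [QuotientGroup.eq_one_iff, Subgroup.mem_subgroupOf] at h1
      exact hsH h1
    obtain ⟨k, hk⟩ := mem_zpowers_of_prime_card hcard hs1
      (g' := ((⟨g0, hg0⟩ : M) : M ⧸ H.subgroupOf M))
    simp only at hk
    rw [← QuotientGroup.mk_zpow, eq_comm, QuotientGroup.eq] at hk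
    rw [Subgroup.mem_subgroupOf] at hk
    have hk' : g0⁻¹ * s ^ k ∈ H := by simpa using hk
    have hsx : (s ^ k) • x = x := by
      have : s ^ k ∈ stabilizer G x := (stabilizer G x).zpow_mem (mem_stabilizer_iff.2 hs.1) k
      exact mem_stabilizer_iff.1 this
    have hk2 : g0 * (s ^ k)⁻¹ ∈ H := by
      have h2 := (hn g0 hg0).1 _ (H.inv_mem hk')
      have h3 : g0 * (g0⁻¹ * s ^ k)⁻¹ * g0⁻¹ = g0 * (s ^ k)⁻¹ := by group
      rwa [h3] at h2
    refine (cls_eq H).2 ⟨g0 * (s ^ k)⁻¹, hk2, ?_⟩
    rw [mul_smul]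
    congr 1
    rw [inv_smul_eq_iff, hsx]
  · intro h hcon
    obtain ⟨k, hk, hkx⟩ := (cls_eq H).1 hcon
    apply hg0'
    have h1 : k⁻¹ * g0 ∈ stabilizer G x ⊓ M := by
      rw [Subgroup.mem_inf, mem_stabilizer_iff]
      refine ⟨?_, M.mul_mem (M.inv_mem (hHM hk)) hg0⟩
      rw [mul_smul, ← hkx, inv_smul_smul]
    have h2 := H.mul_mem hk (h h1)
    rwa [mul_inv_cancel_left] at h2

theorem good_size {M H : Subgroup G} (hHM : H ≤ M) (x : X) (hx : stabilizer G x ⊓ M ≤ H) :
    sz H (cls H x) * H.relIndex M = sz M (cls M x) := by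
  rw [sz_relIndex, sz_relIndex]
  have h1 : stabilizer G x ⊓ M = stabilizer G x ⊓ H :=
    le_antisymm (le_inf inf_le_left hx) (inf_le_inf_left _ hHM)
  rw [← Subgroup.inf_relIndex_right (stabilizer G x) H,
    ← Subgroup.inf_relIndex_right (stabilizer G x) M, h1]
  exact Subgroup.relIndex_mul_relIndex _ _ _ inf_le_right hHM

end size

end Pool.Agent.H634R3.PPC
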