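import Mathlib
import Pool.Agent.H634R3.PPC.OrbTest2
import Pool.Agent.H634R3.PPC.Solv

set_option autoImplicit false

/-!
# Solvable groups acting transitively on the points of a symmetric design
-/

namespace Pool.Agent.H634R3.PPC

open Finset MulAction

section idx

variable {G : Type} [Group G] [Fintype G] {X : Type} [Fintype X] [MulAction G X]

/-- the image of the stabiliser in the abelianisation of `M` -/
def Kb (M : Subgroup G) (x : X) : Subgroup (Abelianization M) :=
  ((stabilizer G x).subgroupOf M).map Abelianization.of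

theorem Kb_index (M : Subgroup G) (x : X) :
    sz ⁅M, M⁆ (cls ⁅M, M⁆ x) * (Kb M x).index = sz M (cls M x) := by
  rw [sz_relIndex, sz_relIndex]
  set T : Subgroup M := (stabilizer G x).subgroupOf M with hT
  set C : Subgroup M := commutator M with hC
  have hker : (Abelianization.of : M →* Abelianization M).ker = C := Abelianization.ker_of M
  have hsurj : Function.Surjective (Abelianization.of : M →* Abelianization M) :=
    QuotientGroup.mk_surjective
  have h1 : C.relIndex T * T.index = (C ⊓ T).index := by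
    rw [← Subgroup.inf_relIndex_right]
    exact Subgroup.relIndex_mul_index inf_le_right
  have h2 : T.relIndex C * C.index = (C ⊓ T).index := by
    rw [← Subgroup.inf_relIndex_right, inf_comm]
    exact Subgroup.relIndex_mul_index inf_le_left
  have h3 : C.relIndex T = Nat.card (Kb M x) := by
    rw [← hker, Subgroup.relIndex_ker]
    rfl
  have h4 : C.index = (Kb M x).index * Nat.card (Kb M x) := by
    rw [← hker, Subgroup.index_ker, MonoidHom.range_eq_top.2 hsurj, Subgroup.card_top,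
      Subgroup.index_mul_card]
  have h5 : T.relIndex C = (stabilizer G x).relIndex ⁅M, M⁆ := by
    rw [hT, Subgroup.subgroupOf, Subgroup.relIndex_comap, hC, Subgroup.map_subtype_commutator]
  have hpos : 0 < Nat.card (Kb M x) := Nat.card_pos
  rw [h4, h5, ← h1, h3] at h2
  have h6 : Nat.card (Kb M x) * ((stabilizer G x).relIndex ⁅M, M⁆ * (Kb M x).index) =
      Nat.card (Kb M x) * T.index := by
    rw [← h2]; ring
  exact Nat.eq_of_mul_eq_mul_left hpos h6

end idx

/-- a function on a set of odd size has a fibre of odd size -/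
theorem odd_fibre {X Y : Type} [Fintype X] (φ : X → Y) (h : Odd (Fintype.card X)) :
    ∃ y, Odd (Nat.card {x : X // φ x = y}) := by
  classical
  by_contra hcon
  push Not at hcon
  rw [← Nat.not_even_iff_odd] at h
  apply h
  rw [← card_univ, card_eq_sum_card_fiberwise (f := φ) (t := univ.image φ)
    (fun x _ => mem_coe.2 (mem_image_of_mem φ (mem_univ x)))]
  apply Finset.even_sum
  intro y _
  have h1 := Nat.not_odd_iff_even.1 (hcon y)
  rw [Nat.card_eq_fintype_card, Fintype.card_subtype] at h1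
  exact h1

open Classical in
/-- **The test for solvable point-transitive groups.** -/
theorem solv_test {G : Type} [Group G] [Fintype G] (hsol : IsSolvable G) {P L : Type} [Fintype P]
    [Fintype L] [MulAction G P] [MulAction G L] {inc : P → L → Prop} {n la : ℕ}
    (D : Des inc n la) (hinc : ∀ (g : G) (p : P) (l : L), inc (g • p) (g • l) ↔ inc p l)
    (htr : ∀ x y : P, ∃ g : G, g • x = y) {q : ℕ} (hq : q.Prime) (hq2 : 2 < q)
    (hqv : q ∣ Fintype.card P) (hqv2 : ¬ q ^ 2 ∣ Fintype.card P) (hodd : Odd (Fintype.card P))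
    {r : ℕ} (hr : r.Prime) {j : ℕ} (hj : (r : ZMod q) ^ j = -1)
    {a : ℕ} (ha : Odd a) {u : ℕ} (hu : ¬ r ∣ u) (hN : n = r ^ a * u) : False := by
  have hPpos : 0 < Fintype.card P := hodd.pos
  obtain ⟨x0⟩ : Nonempty P := Fintype.card_pos_iff.1 hPpos
  -- the derived series
  let f : ℕ → ℕ := fun i => sz (derivedSeries G i) (cls (derivedSeries G i) x0)
  have hf0 : f 0 = Fintype.card P := by
    show sz (derivedSeries G 0) (cls (derivedSeries G 0) x0) = _
    unfold sz
    rw [filter_true_of_mem, card_univ]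
    intro y _
    obtain ⟨g, hg⟩ := htr x0 y
    exact (cls_eq _).2 ⟨g, by rw [derivedSeries_zero]; trivial, hg⟩
  have hex : ∃ k, ¬ q ∣ f k := by
    obtain ⟨k, hk⟩ := hsol.solvable
    refine ⟨k, ?_⟩
    show ¬ q ∣ sz (derivedSeries G k) (cls (derivedSeries G k) x0)
    rw [sz_relIndex, hk, Subgroup.relIndex_bot_right]
    exact fun h => hq.one_lt.ne' (Nat.dvd_one.1 h)
  obtain ⟨i, hi1, hi2⟩ : ∃ i, q ∣ f i ∧ ¬ q ∣ f (i + 1) := by
    have h1 := Nat.find_spec hex
    have h2 : Nat.find hex ≠ 0 := by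
      intro h
      rw [h, hf0] at h1
      exact h1 hqv
    obtain ⟨i, hi⟩ := Nat.exists_eq_succ_of_ne_zero h2
    refine ⟨i, ?_, ?_⟩
    · by_contra h3
      have := Nat.find_min' hex h3
      omega
    · rw [hi] at h1
      exact h1
  obtain ⟨M, hM⟩ : ∃ M, M = derivedSeries G i := ⟨_, rfl⟩
  have hMn : M.Normal := hM ▸ inferInstance
  have hNn : (⁅M, M⁆ : Subgroup G).Normal := inferInstance
  have hN' : derivedSeries G (i + 1) = ⁅M, M⁆ := by rw [derivedSeries_succ, hM]
  have hi1' : q ∣ sz M (cls M x0) := by rw [hM]; exact hi1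
  have hi2' : ¬ q ∣ sz ⁅M, M⁆ (cls ⁅M, M⁆ x0) := by
    rw [← hN']; exact hi2
  obtain ⟨s, hs⟩ : ∃ s, s = sz M (cls M x0) := ⟨_, rfl⟩
  obtain ⟨sN, hsN⟩ : ∃ sN, sN = sz ⁅M, M⁆ (cls ⁅M, M⁆ x0) := ⟨_, rfl⟩
  rw [← hs] at hi1'
  rw [← hsN] at hi2'
  have hsP : ∀ α : orbitRel.Quotient M P, sz M α = s := fun α => by
    rw [hs]; exact sz_const M htr _ _
  have hsNP : ∀ α : orbitRel.Quotient (⁅M, M⁆ : Subgroup G) P, sz ⁅M, M⁆ α = sN := fun α => by
    rw [hsN]; exact sz_const ⁅M, M⁆ htr _ _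
  have hsdvd : s ∣ Fintype.card P := by
    rw [← sz_mul M htr (cls M x0), hsP]
    exact dvd_mul_left _ _
  have hspos : 0 < s := Nat.pos_of_dvd_of_pos hsdvd hPpos
  have hsNpos : 0 < sN := Nat.pos_of_ne_zero (fun h => hi2' (h ▸ dvd_zero q))
  -- the index
  obtain ⟨ix, hix⟩ : ∃ ix, ix = (Kb M x0).index := ⟨_, rfl⟩
  have hixs : sN * ix = s := by
    rw [hix, hsN, hs]; exact Kb_index M x0
  have hixx : ∀ x : P, (Kb M x).index = ix := by
    intro x
    have h1 := Kb_index M x
    rw [hsP, hsNP] at h1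
    exact Nat.eq_of_mul_eq_mul_left hsNpos (h1.trans hixs.symm)
  obtain ⟨r', hr'⟩ : q ∣ ix := by
    rw [← hixs] at hi1'
    exact (hq.dvd_mul.1 hi1').resolve_left hi2'
  have hcop : Nat.Coprime q r' := by
    rw [Nat.Prime.coprime_iff_not_dvd hq]
    rintro ⟨c, rfl⟩
    apply hqv2
    refine dvd_trans ?_ hsdvd
    rw [← hixs, hr']
    exact ⟨sN * c, by ring⟩
  obtain ⟨Hb, hHb⟩ := odd_fibre (fun x : P => (Kb M x).comap (powMonoidHom r')) hodd
  have hHbi : Hb.index = q := by
    obtain ⟨x1, hx1⟩ : Nonempty {x : P // (Kb M x).comap (powMonoidHom r') = Hb} := by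
      by_contra h
      rw [not_nonempty_iff] at h
      rw [Nat.card_of_isEmpty] at hHb
      exact (Nat.not_odd_zero) hHb
    rw [← hx1]
    exact ab_index _ hq hcop (by rw [hixx, hr'])
  let H : Subgroup G := (Hb.comap Abelianization.of).map M.subtype
  have hmem : ∀ (g : G) (hg : g ∈ M), g ∈ H ↔ Abelianization.of (⟨g, hg⟩ : M) ∈ Hb := by
    intro g hg
    constructor
    · rintro ⟨k, hk, hkg⟩
      have : k = ⟨g, hg⟩ := Subtype.ext hkg
      rw [← this]
      exact hk
    · intro h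
      exact ⟨⟨g, hg⟩, h, rfl⟩
  have hHM : H ≤ M := Subgroup.map_subtype_le _
  have hsub : H.subgroupOf M = Hb.comap Abelianization.of := by
    ext g
    rw [Subgroup.mem_subgroupOf, hmem g.1 g.2, Subgroup.mem_comap]
  have hidx : H.relIndex M = q := by
    rw [Subgroup.relIndex, hsub, Subgroup.index_comap_of_surjective _ QuotientGroup.mk_surjective]
    exact hHbi
  have hnrm : ∀ g ∈ M, Nrm H g := by
    intro g hg
    constructor
    · intro h hh
      have h1 := hHM hh
      rw [hmem _ (M.mul_mem (M.mul_mem hg h1) (M.inv_mem hg))]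
      have h2 : (⟨g * h * g⁻¹, M.mul_mem (M.mul_mem hg h1) (M.inv_mem hg)⟩ : M) =
          ⟨g, hg⟩ * ⟨h, h1⟩ * ⟨g, hg⟩⁻¹ := rfl
      rw [h2, map_mul, map_mul, map_inv, mul_comm, inv_mul_cancel_left]
      exact (hmem h h1).1 hh
    · intro h hh
      have h1 := hHM hh
      rw [hmem _ (M.mul_mem (M.mul_mem (M.inv_mem hg) h1) hg)]
      have h2 : (⟨g⁻¹ * h * g, M.mul_mem (M.mul_mem (M.inv_mem hg) h1) hg⟩ : M) =
          ⟨g, hg⟩⁻¹ * ⟨h, h1⟩ * ⟨g, hg⟩ := rfl
      rw [h2, map_mul, map_mul, map_inv, mul_comm, mul_inv_cancel_left]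
      exact (hmem h h1).1 hh
  have hgood : ∀ x : P, stabilizer G x ⊓ M ≤ H ↔ (Kb M x).comap (powMonoidHom r') = Hb := by
    intro x
    rw [← ab_iff (Kb M x) Hb hq hcop (by rw [hixx, hr']) hHbi]
    unfold Kb
    rw [Subgroup.map_le_iff_le_comap]
    constructor
    · intro h g hg
      rw [Subgroup.mem_comap, ← hmem g.1 g.2]
      exact h ⟨Subgroup.mem_subgroupOf.1 hg, g.2⟩
    · rintro h g ⟨hg1, hg2⟩
      rw [hmem g hg2]
      exact h (show (⟨g, hg2⟩ : M) ∈ (stabilizer G x).subgroupOf M from hg1)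
  obtain ⟨g0, hg0, hg0'⟩ : ∃ g0 ∈ M, g0 ∉ H := by
    by_contra h
    push Not at h
    have h1 : H.relIndex M = 1 := Subgroup.relIndex_eq_one.2 h
    rw [hidx] at h1
    exact hq.one_lt.ne' h1
  have hg0q : g0 ^ q ∈ H := by
    rw [hmem _ (M.pow_mem hg0 q)]
    have h2 : (⟨g0 ^ q, M.pow_mem hg0 q⟩ : M) = ⟨g0, hg0⟩ ^ q := rfl
    rw [h2, map_pow, ← QuotientGroup.eq_one_iff, QuotientGroup.mk_pow, ← hHbi]
    exact pow_card_eq_one'
  obtain ⟨m, hm⟩ := hi1'
  have hmpos : 0 < m := Nat.pos_of_ne_zero (fun h => by rw [h, mul_zero] at hm; omega)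
  have hmoved := fun x : P => moved_iff hq hHM hidx hnrm hg0 hg0' x
  have hszP : ∀ α : orbitRel.Quotient H P, bar H (hnrm g0 hg0) α ≠ α → sz H α = m := by
    intro α hα
    obtain ⟨x, rfl⟩ := cls_surj H α
    have h1 := good_size hHM x ((hmoved x).1 hα)
    rw [hidx, hsP, hm, mul_comm q m] at h1
    exact Nat.eq_of_mul_eq_mul_right hq.pos h1
  -- lines
  have hcl1 := card_classes D hinc (⊤ : Subgroup G)
  have htrL : ∀ x y : L, ∃ g : G, g • x = y := by
    intro x y
    have h1 : Fintype.card (orbitRel.Quotient (⊤ : Subgroup G) P) = 1 := by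
      rw [Fintype.card_eq_one_iff]
      refine ⟨cls ⊤ x0, fun α => ?_⟩
      obtain ⟨z, rfl⟩ := cls_surj ⊤ α
      obtain ⟨g, hg⟩ := htr x0 z
      exact (cls_eq _).2 ⟨g, trivial, hg⟩
    rw [h1] at hcl1
    have h2 : Subsingleton (orbitRel.Quotient (⊤ : Subgroup G) L) :=
      Fintype.card_le_one_iff_subsingleton.1 hcl1.symm.le
    obtain ⟨g, -, hg⟩ := (cls_eq (⊤ : Subgroup G)).1 (h2.elim (cls ⊤ y) (cls ⊤ x))
    exact ⟨g, hg⟩
  have hsL : ∀ β : orbitRel.Quotient M L, sz M β = s := by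
    intro β
    have h1 := sz_mul M htrL β
    have h2 := sz_mul M htr (cls M x0)
    rw [← D.card, ← h2, ← card_classes D hinc M, hsP] at h1
    have h3 : 0 < Fintype.card (orbitRel.Quotient M P) :=
      Fintype.card_pos_iff.2 ⟨cls M x0⟩
    exact Nat.eq_of_mul_eq_mul_left h3 h1
  have hszL : ∀ β : orbitRel.Quotient H L, bar H (hnrm g0 hg0) β ≠ β → sz H β = m := by
    intro α hα
    obtain ⟨x, rfl⟩ := cls_surj H α
    have h1 := good_size hHM x ((moved_iff hq hHM hidx hnrm hg0 hg0' x).1 hα)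
    rw [hidx, hsL, hm, mul_comm q m] at h1
    exact Nat.eq_of_mul_eq_mul_right hq.pos h1
  refine orb_test D hinc H (hnrm g0 hg0) hq hq2 hg0q hmpos hszP hszL ?_ hr hj ha hu hN
  -- parity
  have h1 : Nat.card {x : P // (Kb M x).comap (powMonoidHom r') = Hb} =
      (univ.filter (fun α : orbitRel.Quotient H P => bar H (hnrm g0 hg0) α ≠ α)).card * m := by
    rw [Nat.card_eq_fintype_card, Fintype.card_subtype,
      card_eq_sum_card_fiberwise (f := fun x : P => cls H x)
      (t := univ.filter (fun α : orbitRel.Quotient H P => bar H (hnrm g0 hg0) α ≠ α))]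
    · rw [← smul_eq_mul, ← sum_const]
      refine sum_congr rfl fun α hα => ?_
      have hα' := (mem_filter.1 hα).2
      rw [← hszP α hα']
      unfold sz
      rw [filter_filter]
      congr 1
      ext x
      simp only [mem_filter, mem_univ, true_and, and_iff_right_iff_imp]
      rintro rfl
      exact (hgood x).1 ((hmoved x).1 hα')
    · intro x hx
      rw [mem_coe, mem_filter] at hx ⊢
      exact ⟨mem_univ _, (hmoved x).2 ((hgood x).2 hx.2)⟩
  rw [h1] at hHb
  exact (Nat.odd_mul.1 hHb).1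

end Pool.Agent.H634R3.PPC
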