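import Mathlib
import Pool.Agent.H634R3.PPC.Test

set_option autoImplicit false

/-!
# Collineations of odd prime order with an even number of fixed points
-/

namespace Pool.Agent.H634R3.PPC

open Configuration Configuration.ProjectivePlane Finset

section count

variable {P L : Type} [Membership P L] [ProjectivePlane P L] [Fintype P] [Fintype L]

open Classical in
/-- number of common lines -/
theorem card_common_lines (x z : P) :
    (univ.filter (fun l : L => x ∈ l ∧ z ∈ l)).card = (if x = z then order P L else 0) + 1 := by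
  by_cases h : x = z
  · subst h
    rw [if_pos rfl, ← lineCount_eq (L := L) x]
    unfold lineCount
    rw [Nat.card_eq_fintype_card, Fintype.card_subtype]
    simp
  · rw [if_neg h, zero_add, Finset.card_eq_one]
    refine ⟨HasLines.mkLine h, ?_⟩
    ext l
    simp only [mem_filter, mem_univ, true_and, mem_singleton]
    constructor
    · rintro ⟨h1, h2⟩
      exact ((Nondegenerate.eq_or_eq h1 h2 (HasLines.mkLine_ax h).1
        (HasLines.mkLine_ax h).2).resolve_left h)
    · rintro rfl
      exact HasLines.mkLine_ax h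

open Classical in
theorem card_common_points (l m : L) :
    (univ.filter (fun p : P => p ∈ l ∧ p ∈ m)).card = (if l = m then order P L else 0) + 1 := by
  by_cases h : l = m
  · subst h
    rw [if_pos rfl, ← pointCount_eq P l]
    unfold pointCount
    rw [Nat.card_eq_fintype_card, Fintype.card_subtype]
    simp
  · rw [if_neg h, zero_add, Finset.card_eq_one]
    refine ⟨HasPoints.mkPoint h, ?_⟩
    ext p
    simp only [mem_filter, mem_univ, true_and, mem_singleton]
    constructor
    · rintro ⟨h1, h2⟩
      exact ((Nondegenerate.eq_or_eq h1 (HasPoints.mkPoint_ax h).1 h2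
        (HasPoints.mkPoint_ax h).2).resolve_right h)
    · rintro rfl
      exact HasPoints.mkPoint_ax h

open Classical in
/-- A collineation has as many fixed points as fixed lines. -/
theorem card_fixed (σ : Equiv.Perm P) (τ : Equiv.Perm L) (h : ∀ p l, σ p ∈ τ l ↔ p ∈ l) :
    (univ.filter (fun p => σ p = p)).card = (univ.filter (fun l => τ l = l)).card := by
  have h1 : ∑ p : P, (univ.filter (fun l : L => p ∈ l ∧ σ p ∈ l)).card =
      order P L * (univ.filter (fun p => σ p = p)).card + Fintype.card P := by
    simp only [card_common_lines]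
    rw [sum_add_distrib, card_filter, mul_sum, sum_const, smul_eq_mul, mul_one, card_univ]
    congr 1
    refine sum_congr rfl fun p _ => ?_
    by_cases hp : σ p = p
    · simp [hp]
    · rw [if_neg (fun h => hp h.symm), if_neg hp, mul_zero]
  have h2 : ∑ l : L, (univ.filter (fun p : P => p ∈ l ∧ p ∈ τ.symm l)).card =
      order P L * (univ.filter (fun l => τ l = l)).card + Fintype.card L := by
    simp only [card_common_points]
    rw [sum_add_distrib, card_filter, mul_sum, sum_const, smul_eq_mul, mul_one, card_univ]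
    congr 1
    refine sum_congr rfl fun l _ => ?_
    by_cases hl : τ l = l
    · rw [if_pos hl, if_pos, mul_one]
      rw [Equiv.eq_symm_apply, hl]
    · rw [if_neg hl, if_neg, mul_zero]
      rw [Equiv.eq_symm_apply]
      exact hl
  have h3 : ∑ p : P, (univ.filter (fun l : L => p ∈ l ∧ σ p ∈ l)).card =
      ∑ l : L, (univ.filter (fun p : P => p ∈ l ∧ p ∈ τ.symm l)).card := by
    have e1 : ∀ p : P, (univ.filter (fun l : L => p ∈ l ∧ σ p ∈ l)).card =
        ∑ l : L, if p ∈ l ∧ σ p ∈ l then 1 else 0 := fun p => card_filter _ _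
    have e2 : ∀ l : L, (univ.filter (fun p : P => p ∈ l ∧ p ∈ τ.symm l)).card =
        ∑ p : P, if p ∈ l ∧ p ∈ τ.symm l then 1 else 0 := fun l => card_filter _ _
    simp only [e1, e2]
    rw [sum_comm]
    refine sum_congr rfl fun l _ => sum_congr rfl fun p _ => ?_
    have : σ p ∈ l ↔ p ∈ τ.symm l := by
      conv_lhs => rw [← τ.apply_symm_apply l]
      exact h p _
    rw [this]
  rw [h1, h2, card_points_eq_card_lines P L] at h3
  have h4 := one_lt_order P L
  have h5 := Nat.add_right_cancel h3
  exact Nat.eq_of_mul_eq_mul_left (by omega) h5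

end count

/-- the test for planes -/
theorem plane_test {P L : Type} [Membership P L] [ProjectivePlane P L] [Fintype P] [Fintype L]
    (σ : Equiv.Perm P) (τ : Equiv.Perm L) (h : ∀ p l, σ p ∈ τ l ↔ p ∈ l) {q : ℕ} (hq : q.Prime)
    (hq2 : 2 < q) (hσ : σ ^ q = 1) (hτ : τ ^ q = 1) (heven : Even (Nat.card {p // σ p = p}))
    {r : ℕ} (hr : r.Prime) {j : ℕ} (hj : (r : ZMod q) ^ j = -1)
    {a : ℕ} (ha : Odd a) {u : ℕ} (hu : ¬ r ∣ u) (hN : order P L = r ^ a * u) : False := by
  classical
  have : NeZero q := ⟨hq.ne_zero⟩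
  -- the moved points and lines
  let X := {p : P // σ p ≠ p}
  let Y := {l : L // τ l ≠ l}
  let ρ : Equiv.Perm X := σ.subtypePerm (fun p => by
    simp only [ne_eq, EmbeddingLike.apply_eq_iff_eq])
  let ρ' : Equiv.Perm Y := τ.subtypePerm (fun l => by
    simp only [ne_eq, EmbeddingLike.apply_eq_iff_eq])
  have hρk : ∀ (k : ℕ) (x : X), ((ρ ^ k) x).1 = (σ ^ k) x.1 := by
    intro k
    induction k with
    | zero => intro x; rfl
    | succ k ih =>
      intro x
      rw [pow_succ', pow_succ', Equiv.Perm.mul_apply, Equiv.Perm.mul_apply, ← ih]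
      rfl
  have hρ'k : ∀ (k : ℕ) (y : Y), ((ρ' ^ k) y).1 = (τ ^ k) y.1 := by
    intro k
    induction k with
    | zero => intro x; rfl
    | succ k ih =>
      intro x
      rw [pow_succ', pow_succ', Equiv.Perm.mul_apply, Equiv.Perm.mul_apply, ← ih]
      rfl
  obtain ⟨T, hTf, hTd, e, he⟩ := free_decomp hq ρ (by
    ext x
    rw [hρk, hσ]
    rfl) (fun x hx => x.2 (congrArg Subtype.val hx))
  obtain ⟨T', hTf', hTd', e', he'⟩ := free_decomp hq ρ' (by
    ext x
    rw [hρ'k, hτ]
    rfl) (fun x hx => x.2 (congrArg Subtype.val hx))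
  have hpow : ∀ (k : ℕ) p l, (σ ^ k) p ∈ (τ ^ k) l ↔ p ∈ l := by
    intro k
    induction k with
    | zero => intro p l; rfl
    | succ k ih =>
      intro p l
      rw [pow_succ', pow_succ', Equiv.Perm.mul_apply, Equiv.Perm.mul_apply, h, ih]
  -- counting
  have hfix := card_fixed σ τ h
  have hX : Fintype.card X + (univ.filter (fun p => σ p = p)).card = Fintype.card P := by
    rw [Fintype.card_subtype, add_comm]
    exact card_filter_add_card_filter_not _
  have hY : Fintype.card Y + (univ.filter (fun l => τ l = l)).card = Fintype.card L := by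
    rw [Fintype.card_subtype, add_comm]
    exact card_filter_add_card_filter_not _
  have hPL := card_points_eq_card_lines P L
  have hXT : Fintype.card X = Fintype.card T * q := by
    rw [← Fintype.card_congr e, Fintype.card_prod, ZMod.card]
  have hYT : Fintype.card Y = Fintype.card T' * q := by
    rw [← Fintype.card_congr e', Fintype.card_prod, ZMod.card]
  have hTT : Fintype.card T = Fintype.card T' := by
    apply Nat.eq_of_mul_eq_mul_right hq.pos
    omega
  let ε : T ≃ T' := Fintype.equivOfCardEq hTT
  have hTodd : Odd (Fintype.card T) := by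
    rw [Nat.card_eq_fintype_card, Fintype.card_subtype] at heven
    have h1 : Odd (Fintype.card P) := by
      rw [card_points P L]
      have : order P L ^ 2 + order P L = order P L * (order P L + 1) := by ring
      rw [this]
      exact (Nat.even_mul_succ_self _).add_one
    have h2 : Odd (Fintype.card T * q) := by
      rw [← hXT]
      rcases Nat.even_or_odd (Fintype.card X) with h3 | h3
      · exfalso
        rw [← hX] at h1
        exact (Nat.not_even_iff_odd.2 h1) (h3.add heven)
      · exact h3
    exact (Nat.odd_mul.1 h2).1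
  let A : T × ZMod q → T × ZMod q → ℤ := fun x y =>
    if (e x).1 ∈ (e' (ε y.1, y.2)).1 then 1 else 0
  let lam : T → T → ℤ := fun s t =>
    1 - ((univ.filter (fun l : L => τ l = l ∧ (e (s, 0)).1 ∈ l ∧ (e (t, 0)).1 ∈ l)).card : ℤ)
  refine test' hq2 A (order P L : ℤ) lam ?_ ?_ hTodd hr hj ha (u := (u : ℤ)) ?_ ?_
  · -- rows
    intro x z
    have h1 : ∑ y : T × ZMod q, A x y * A z y =
        ∑ y : Y, if (e x).1 ∈ y.1 ∧ (e z).1 ∈ y.1 then (1 : ℤ) else 0 := by
      rw [← Equiv.sum_comp ((Equiv.prodCongr ε (Equiv.refl (ZMod q))).trans e')]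
      refine sum_congr rfl fun y _ => ?_
      simp only [A, Equiv.trans_apply, Equiv.prodCongr_apply, Prod.map, Equiv.refl_apply]
      split_ifs <;> simp_all
    have h2 : (∑ y : Y, if (e x).1 ∈ y.1 ∧ (e z).1 ∈ y.1 then (1 : ℤ) else 0) =
        ((univ.filter (fun l : L => ¬ τ l = l ∧ (e x).1 ∈ l ∧ (e z).1 ∈ l)).card : ℤ) := by
      rw [← Finset.sum_subtype (univ.filter (fun l : L => τ l ≠ l)) (by simp)
        (fun l => if (e x).1 ∈ l ∧ (e z).1 ∈ l then (1 : ℤ) else 0), ← Finset.sum_filter,
        Finset.filter_filter]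
      simp
    have h3 : (univ.filter (fun l : L => τ l = l ∧ (e x).1 ∈ l ∧ (e z).1 ∈ l)).card +
        (univ.filter (fun l : L => ¬ τ l = l ∧ (e x).1 ∈ l ∧ (e z).1 ∈ l)).card =
        (if (e x).1 = (e z).1 then order P L else 0) + 1 := by
      rw [← card_common_lines (L := L) (e x).1 (e z).1, ← card_filter_add_card_filter_not
        (s := univ.filter (fun l : L => (e x).1 ∈ l ∧ (e z).1 ∈ l)) (fun l => τ l = l),
        filter_filter, filter_filter]
      congr 2 <;> · ext l; simp only [mem_filter, mem_univ, true_and]; tauto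
    have h4 : ((e x).1 = (e z).1) ↔ x = z := by
      rw [Subtype.val_inj, EmbeddingLike.apply_eq_iff_eq]
    -- fixed lines see only the orbits
    have h5 : ∀ (y : T × ZMod q) (l : L), τ l = l → ((e y).1 ∈ l ↔ (e (y.1, 0)).1 ∈ l) := by
      rintro ⟨t, i⟩ l hl
      have h6 := he t 0 i
      rw [zero_add] at h6
      simp only
      rw [h6, hρk]
      have h7 : (τ ^ i.val) l = l := by
        generalize i.val = k
        induction k with
        | zero => rfl
        | succ k ih => rw [pow_succ, Equiv.Perm.mul_apply, hl, ih]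
      conv_lhs => rw [← h7]
      exact hpow _ _ _
    have h8 : (univ.filter (fun l : L => τ l = l ∧ (e x).1 ∈ l ∧ (e z).1 ∈ l)).card =
        (univ.filter (fun l : L => τ l = l ∧ (e (x.1, 0)).1 ∈ l ∧ (e (z.1, 0)).1 ∈ l)).card := by
      congr 1
      ext l
      simp only [mem_filter, mem_univ, true_and]
      constructor
      · rintro ⟨h9, h10, h11⟩
        exact ⟨h9, (h5 x l h9).1 h10, (h5 z l h9).1 h11⟩
      · rintro ⟨h9, h10, h11⟩
        exact ⟨h9, (h5 x l h9).2 h10, (h5 z l h9).2 h11⟩
    rw [h1, h2]
    simp only [lam]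
    simp only [h4] at h3
    rw [h8] at h3
    have h12 : ((univ.filter (fun l : L => τ l = l ∧ (e (x.1, 0)).1 ∈ l ∧
        (e (z.1, 0)).1 ∈ l)).card : ℤ) +
        ((univ.filter (fun l : L => ¬ τ l = l ∧ (e x).1 ∈ l ∧ (e z).1 ∈ l)).card : ℤ) =
        (if x = z then (order P L : ℤ) else 0) + 1 := by
      have := congrArg (Nat.cast (R := ℤ)) h3
      push_cast at this
      exact this
    linarith
  · intro s t i j' c
    simp only [A]
    rw [he s i c, he' (ε t) j' c, hρk, hρ'k, hpow]
  · intro h1
    exact hu (by exact_mod_cast h1)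
  · rw [hN]
    push_cast
    ring

end Pool.Agent.H634R3.PPC
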