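import Mathlib
import Pool.Agent.H634R3.PPC.Plane

set_option autoImplicit false

/-!
# Central collineations
-/

namespace Pool.Agent.H634R3.PPC

open Configuration Configuration.ProjectivePlane Finset

section

variable {P L : Type} [Membership P L] [ProjectivePlane P L] [Finite P] [Finite L]

theorem exists_ne_ne (l : L) (x y : P) : ∃ z : P, z ∈ l ∧ z ≠ x ∧ z ≠ y := by
  classical
  have := Fintype.ofFinite {p : P // p ∈ l}
  have h := two_lt_pointCount P l
  unfold pointCount at h
  rw [Nat.card_eq_fintype_card, Fintype.two_lt_card_iff] at h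
  obtain ⟨a, b, c, hab, hac, hbc⟩ := h
  by_contra hcon
  push Not at hcon
  have h1 := hcon a.1 a.2
  have h2 := hcon b.1 b.2
  have h3 := hcon c.1 c.2
  by_cases e1 : a.1 = x
  · by_cases e2 : b.1 = x
    · exact hab (Subtype.ext (e1.trans e2.symm))
    · by_cases e3 : c.1 = x
      · exact hac (Subtype.ext (e1.trans e3.symm))
      · exact hbc (Subtype.ext ((h2 e2).trans (h3 e3).symm))
  · by_cases e2 : b.1 = x
    · by_cases e3 : c.1 = x
      · exact hbc (Subtype.ext (e2.trans e3.symm))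
      · exact hac (Subtype.ext ((h1 e1).trans (h3 e3).symm))
    · exact hab (Subtype.ext ((h1 e1).trans (h2 e2).symm))

theorem exists_line_ne_ne (p : P) (l m : L) : ∃ k : L, p ∈ k ∧ k ≠ l ∧ k ≠ m := by
  obtain ⟨k, h1, h2, h3⟩ := exists_ne_ne (P := Dual L) (L := Dual P) p l m
  exact ⟨k, h1, h2, h3⟩

theorem line_ext {l m : L} (h : ∀ p : P, p ∈ l ↔ p ∈ m) : l = m := by
  obtain ⟨x, hx, -, -⟩ := exists_ne_ne (P := P) l (Classical.choose
    (@exists_config P L _ _)) (Classical.choose (@exists_config P L _ _))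
  obtain ⟨y, hy, hyx, -⟩ := exists_ne_ne (P := P) l x x
  exact (Nondegenerate.eq_or_eq hx hy ((h x).1 hx) ((h y).1 hy)).resolve_left (Ne.symm hyx)

/-- if a line has two fixed points, it is fixed -/
theorem fixed_line {σ : Equiv.Perm P} {τ : Equiv.Perm L} (h : ∀ p l, σ p ∈ τ l ↔ p ∈ l)
    {x y : P} (hx : σ x = x) (hy : σ y = y) (hxy : x ≠ y) {l : L} (hxl : x ∈ l) (hyl : y ∈ l) :
    τ l = l := by
  have h1 : x ∈ τ l := by
    have := (h x l).2 hxl
    rwa [hx] at this
  have h2 : y ∈ τ l := by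
    have := (h y l).2 hyl
    rwa [hy] at this
  exact (Nondegenerate.eq_or_eq h1 h2 hxl hyl).resolve_left hxy

/-- if a point lies on two fixed lines, it is fixed -/
theorem fixed_point {σ : Equiv.Perm P} {τ : Equiv.Perm L} (h : ∀ p l, σ p ∈ τ l ↔ p ∈ l)
    {x : P} {l m : L} (hl : τ l = l) (hm : τ m = m) (hlm : l ≠ m) (hxl : x ∈ l) (hxm : x ∈ m) :
    σ x = x := by
  have h1 : σ x ∈ l := by
    have := (h x l).2 hxl
    rwa [hl] at this
  have h2 : σ x ∈ m := by
    have := (h x m).2 hxm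
    rwa [hm] at this
  exact (Nondegenerate.eq_or_eq h1 hxl h2 hxm).resolve_right hlm

/-- `σ` (with its action `τ` on lines) is a central collineation with centre `C` and axis `a`. -/
structure Central (C : P) (a : L) (σ : Equiv.Perm P) (τ : Equiv.Perm L) : Prop where
  inc : ∀ p l, σ p ∈ τ l ↔ p ∈ l
  axis : ∀ p, p ∈ a → σ p = p
  centre : ∀ l, C ∈ l → τ l = l

theorem Central.fix_centre {C : P} {a : L} {σ : Equiv.Perm P} {τ : Equiv.Perm L}
    (h : Central C a σ τ) : σ C = C := by
  obtain ⟨k, hk, -, -⟩ := exists_line_ne_ne C a a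
  obtain ⟨m, hm, hmk, -⟩ := exists_line_ne_ne C k k
  exact fixed_point h.inc (h.centre k hk) (h.centre m hm) (Ne.symm hmk) hk hm

/-- one step -/
theorem Central.step {C : P} {a : L} {σ : Equiv.Perm P} {τ : Equiv.Perm L}
    (h : Central C a σ τ) {x y : P} (hxa : x ∉ a) (hx : σ x = x)
    (hyC : ∀ l : L, C ∈ l → x ∈ l → y ∉ l) : σ y = y := by
  have hxy : x ≠ y := by
    rintro rfl
    by_cases hc : C = x
    · subst hc
      obtain ⟨k, hk, -, -⟩ := exists_line_ne_ne C a a
      exact hyC k hk hk hk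
    · exact hyC (HasLines.mkLine hc) (HasLines.mkLine_ax hc).1 (HasLines.mkLine_ax hc).2
        (HasLines.mkLine_ax hc).2
  -- the line `xy`
  set l : L := HasLines.mkLine hxy with hl
  have hxl : x ∈ l := (HasLines.mkLine_ax hxy).1
  have hyl : y ∈ l := (HasLines.mkLine_ax hxy).2
  have hla : l ≠ a := fun e => hxa (e ▸ hxl)
  have hz1 : HasPoints.mkPoint hla ∈ l := (HasPoints.mkPoint_ax hla).1
  have hz2 : HasPoints.mkPoint hla ∈ a := (HasPoints.mkPoint_ax hla).2
  have hxz : x ≠ HasPoints.mkPoint hla := fun e => hxa (by rw [e]; exact hz2)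
  have hlfix : τ l = l := fixed_line h.inc hx (h.axis _ hz2) hxz hxl hz1
  have hCl : C ∉ l := fun hc => hyC l hc hxl hyl
  have hCy : C ≠ y := fun e => hCl (e ▸ hyl)
  have hm1 : C ∈ (HasLines.mkLine hCy : L) := (HasLines.mkLine_ax hCy).1
  have hm2 : y ∈ (HasLines.mkLine hCy : L) := (HasLines.mkLine_ax hCy).2
  exact fixed_point h.inc hlfix (h.centre _ hm1) (fun e => hCl (by rw [e]; exact hm1)) hyl hm2

theorem Central.eq_one {C : P} {a : L} {σ : Equiv.Perm P} {τ : Equiv.Perm L}
    (h : Central C a σ τ) {x : P} (hxa : x ∉ a) (hxC : x ≠ C) (hx : σ x = x) : σ = 1 := by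
  have hCx : C ≠ x := Ne.symm hxC
  set m : L := HasLines.mkLine hCx with hm
  have hCm : C ∈ m := (HasLines.mkLine_ax hCx).1
  have hxm : x ∈ m := (HasLines.mkLine_ax hCx).2
  have huniq : ∀ l : L, C ∈ l → x ∈ l → l = m := fun l h1 h2 =>
    (Nondegenerate.eq_or_eq h1 h2 hCm hxm).resolve_left hCx
  have hoff : ∀ y : P, y ∉ m → σ y = y := by
    intro y hy
    apply h.step hxa hx
    intro l h1 h2
    rw [huniq l h1 h2]
    exact hy
  -- a point `w` off `m` and off `a`
  obtain ⟨k, hCk, hkm, hka⟩ := exists_line_ne_ne C m a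
  obtain ⟨w, hwk, hwC, hwa'⟩ := exists_ne_ne k C (HasPoints.mkPoint hka)
  have hwa : w ∉ a := by
    intro hwa
    have := (Nondegenerate.eq_or_eq hwk (HasPoints.mkPoint_ax hka).1 hwa
      (HasPoints.mkPoint_ax hka).2).resolve_right hka
    exact hwa' this
  have hwm : w ∉ m := by
    intro hwm
    exact hkm ((Nondegenerate.eq_or_eq hCk hwk hCm hwm).resolve_left (Ne.symm hwC))
  have hw := hoff w hwm
  ext y
  simp only [Equiv.Perm.coe_one, id_eq]
  by_cases hy : y ∈ m
  · by_cases hyC : y = C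
    · rw [hyC]
      exact h.fix_centre
    · apply h.step hwa hw
      intro l h1 h2 h3
      have h4 : l = k := (Nondegenerate.eq_or_eq h1 h2 hCk hwk).resolve_left (Ne.symm hwC)
      rw [h4] at h3
      exact hkm ((Nondegenerate.eq_or_eq hCk h3 hCm hy).resolve_left (Ne.symm hyC))
  · exact hoff y hy

/-- the group of central collineations with centre `C` and axis `a` -/
def centralGroup (C : P) (a : L) : Subgroup (Equiv.Perm P) where
  carrier := {σ | ∃ τ : Equiv.Perm L, Central C a σ τ}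
  mul_mem' := by
    rintro σ σ' ⟨τ, h⟩ ⟨τ', h'⟩
    refine ⟨τ * τ', ⟨?_, ?_, ?_⟩⟩
    · intro p l
      rw [Equiv.Perm.mul_apply, Equiv.Perm.mul_apply, h.inc, h'.inc]
    · intro p hp
      rw [Equiv.Perm.mul_apply, h'.axis p hp, h.axis p hp]
    · intro l hl
      rw [Equiv.Perm.mul_apply, h'.centre l hl, h.centre l hl]
  one_mem' := ⟨1, ⟨fun _ _ => Iff.rfl, fun _ _ => rfl, fun _ _ => rfl⟩⟩
  inv_mem' := by
    rintro σ ⟨τ, h⟩
    refine ⟨τ⁻¹, ⟨?_, ?_, ?_⟩⟩
    · intro p l
      rw [← h.inc, ← Equiv.Perm.mul_apply, ← Equiv.Perm.mul_apply, mul_inv_cancel,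
        mul_inv_cancel]
      rfl
    · intro p hp
      rw [Equiv.Perm.inv_eq_iff_eq, h.axis p hp]
    · intro l hl
      rw [Equiv.Perm.inv_eq_iff_eq, h.centre l hl]

/-- `(C, a)`-transitivity -/
def CentreAxisTransitive (C : P) (a : L) : Prop :=
  ∀ x y : P, ∀ m : L, C ∈ m → x ∈ m → y ∈ m → x ∉ a → y ∉ a → x ≠ C → y ≠ C →
    ∃ (σ : Equiv.Perm P) (τ : Equiv.Perm L), Central C a σ τ ∧ σ x = y

open Classical in
theorem card_centralGroup {C : P} {a : L} (h : CentreAxisTransitive C a) :
    Nat.card (centralGroup C a) + (if C ∈ a then 0 else 1) = order P L := by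
  have := Fintype.ofFinite P
  have := Fintype.ofFinite L
  obtain ⟨m, hCm, hma, -⟩ := exists_line_ne_ne C a a
  obtain ⟨x, hxm, hxC, hxz⟩ := exists_ne_ne m C (HasPoints.mkPoint hma)
  have hza : ∀ y : P, y ∈ m → (y ∈ a ↔ y = HasPoints.mkPoint hma) := by
    intro y hy
    constructor
    · intro hya
      exact (Nondegenerate.eq_or_eq hy (HasPoints.mkPoint_ax hma).1 hya
        (HasPoints.mkPoint_ax hma).2).resolve_right hma
    · rintro rfl
      exact (HasPoints.mkPoint_ax hma).2
  have hxa : x ∉ a := fun e => hxz ((hza x hxm).1 e)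
  let X : Finset P := univ.filter (fun y => y ∈ m ∧ y ≠ HasPoints.mkPoint hma ∧ y ≠ C)
  have hmap : ∀ σ ∈ centralGroup C a, σ x ∈ X := by
    rintro σ ⟨τ, hσ⟩
    simp only [X, mem_filter, mem_univ, true_and]
    refine ⟨?_, ?_, ?_⟩
    · have := (hσ.inc x m).2 hxm
      rwa [hσ.centre m hCm] at this
    · intro e
      rw [← hσ.axis _ (HasPoints.mkPoint_ax hma).2] at e
      exact hxz (σ.injective e)
    · intro e
      have e2 : σ x = σ C := e.trans hσ.fix_centre.symm
      exact hxC (σ.injective e2)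
  have hcard : Nat.card (centralGroup C a) = X.card := by
    rw [← Fintype.card_coe, ← Nat.card_eq_fintype_card]
    apply Nat.card_eq_of_bijective (fun σ : centralGroup C a => (⟨σ.1 x, hmap σ.1 σ.2⟩ : X))
    constructor
    · rintro ⟨σ, hσ⟩ ⟨σ', hσ'⟩ e
      simp only [Subtype.mk.injEq] at e
      have h1 : σ⁻¹ * σ' ∈ centralGroup C a := mul_mem (inv_mem hσ) hσ'
      obtain ⟨τ, h2⟩ := h1
      have h3 : (σ⁻¹ * σ') x = x := by
        rw [Equiv.Perm.mul_apply, ← e, ← Equiv.Perm.mul_apply, inv_mul_cancel]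
        rfl
      have h4 := h2.eq_one hxa hxC h3
      rw [inv_mul_eq_one] at h4
      exact Subtype.ext h4
    · rintro ⟨y, hy⟩
      simp only [X, mem_filter, mem_univ, true_and] at hy
      obtain ⟨σ, τ, h1, h2⟩ := h x y m hCm hxm hy.1 hxa (fun e => hy.2.1 ((hza y hy.1).1 e)) hxC
        hy.2.2
      exact ⟨⟨σ, τ, h1⟩, Subtype.ext h2⟩
  have hM : (univ.filter (fun y : P => y ∈ m)).card = order P L + 1 := by
    have := card_common_points (P := P) m m
    rw [if_pos rfl] at this
    rw [← this]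
    congr 1
    ext y
    simp
  have hX : X = ((univ.filter (fun y : P => y ∈ m)).erase (HasPoints.mkPoint hma)).erase C := by
    ext y
    simp only [X, mem_filter, mem_univ, true_and, mem_erase]
    tauto
  have h1 : ((univ.filter (fun y : P => y ∈ m)).erase (HasPoints.mkPoint hma)).card =
      order P L := by
    rw [card_erase_of_mem, hM, Nat.add_sub_cancel]
    simp only [mem_filter, mem_univ, true_and]
    exact (HasPoints.mkPoint_ax hma).1
  have h2 := one_lt_order P L
  rw [hcard, hX]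
  by_cases hCa : C ∈ a
  · rw [if_pos hCa, add_zero, erase_eq_of_notMem, h1]
    rw [← (hza C hCm).1 hCa]
    simp
  · rw [if_neg hCa, card_erase_of_mem, h1]
    · omega
    · simp only [mem_erase, mem_filter, mem_univ, true_and]
      exact ⟨fun e => hCa ((hza C hCm).2 e), hCm⟩

open Classical in
/-- the number of fixed points of a nontrivial central collineation -/
theorem Central.card_fixed {C : P} {a : L} {σ : Equiv.Perm P} {τ : Equiv.Perm L}
    (h : Central C a σ τ) (hσ : σ ≠ 1) :
    Nat.card {p // σ p = p} = order P L + 1 + (if C ∈ a then 0 else 1) := by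
  have := Fintype.ofFinite P
  have := Fintype.ofFinite L
  have hM : (univ.filter (fun y : P => y ∈ a)).card = order P L + 1 := by
    have := card_common_points (P := P) a a
    rw [if_pos rfl] at this
    rw [← this]
    congr 1
    ext y
    simp
  rw [Nat.card_eq_fintype_card, Fintype.card_subtype]
  have h1 : univ.filter (fun p => σ p = p) = insert C (univ.filter (fun y : P => y ∈ a)) := by
    ext p
    simp only [mem_filter, mem_univ, true_and, mem_insert]
    constructor
    · intro hp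
      by_contra hcon
      push Not at hcon
      exact hσ (h.eq_one hcon.2 hcon.1 hp)
    · rintro (rfl | hp)
      · exact h.fix_centre
      · exact h.axis p hp
  rw [h1]
  by_cases hCa : C ∈ a
  · rw [if_pos hCa, insert_eq_of_mem (by simpa using hCa), hM]
  · rw [if_neg hCa, card_insert_of_notMem (by simpa using hCa), hM]

end

/-- the test for planes, for a collineation of prime order -/
theorem plane_test' {P L : Type} [Membership P L] [ProjectivePlane P L] [Finite P] [Finite L]
    (σ : Equiv.Perm P) (τ : Equiv.Perm L) (h : ∀ p l, σ p ∈ τ l ↔ p ∈ l) {q : ℕ} (hq : q.Prime)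
    (hq2 : 2 < q) (hσ : σ ^ q = 1) (heven : Even (Nat.card {p // σ p = p}))
    {r : ℕ} (hr : r.Prime) {j : ℕ} (hj : (r : ZMod q) ^ j = -1)
    (hrn : r ∣ order P L) (hrn2 : ¬ r ^ 2 ∣ order P L) : False := by
  have := Fintype.ofFinite P
  have := Fintype.ofFinite L
  have hpow : ∀ (k : ℕ) p l, (σ ^ k) p ∈ (τ ^ k) l ↔ p ∈ l := by
    intro k
    induction k with
    | zero => intro p l; rfl
    | succ k ih =>
      intro p l
      rw [pow_succ', pow_succ', Equiv.Perm.mul_apply, Equiv.Perm.mul_apply, h, ih]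
  have hτ : τ ^ q = 1 := by
    ext l
    rw [Equiv.Perm.coe_one, id_eq]
    apply line_ext (P := P)
    intro p
    have h1 := hpow q p l
    rw [hσ] at h1
    exact h1
  obtain ⟨u, hu⟩ := hrn
  refine plane_test σ τ h hq hq2 hσ hτ heven hr hj (a := 1) odd_one (u := u) ?_ ?_
  · rintro ⟨v, rfl⟩
    apply hrn2
    rw [hu]
    exact ⟨v, by ring⟩
  · rw [hu, pow_one]

open Classical in
/-- (C, a)-transitive planes -/
theorem central_test {P L : Type} [Membership P L] [ProjectivePlane P L] [Finite P] [Finite L]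
    {C : P} {a : L} {q : ℕ} (hq : q.Prime) (hq2 : 2 < q)
    (hqn : q ∣ Nat.card (centralGroup C a))
    (hpar : Even (order P L + 1 + (if C ∈ a then 0 else 1)))
    {r : ℕ} (hr : r.Prime) {j : ℕ} (hj : (r : ZMod q) ^ j = -1)
    (hrn : r ∣ order P L) (hrn2 : ¬ r ^ 2 ∣ order P L) : False := by
  have := Fintype.ofFinite P
  have : Fact q.Prime := ⟨hq⟩
  obtain ⟨⟨σ, τ, h⟩, hσ⟩ := exists_prime_orderOf_dvd_card' q hqn
  have h1 : orderOf σ = q := by
    rw [← hσ]
    exact (Subgroup.orderOf_mk σ _).symm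
  have h2 : σ ≠ 1 := by
    rintro rfl
    rw [orderOf_one] at h1
    exact hq.one_lt.ne h1
  refine plane_test' σ τ h.inc hq hq2 ?_ ?_ hr hj hrn hrn2
  · rw [← h1]
    exact pow_orderOf_eq_one σ
  · rw [h.card_fixed h2]
    exact hpar

end Pool.Agent.H634R3.PPC
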