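import Mathlib
import Pool.Agent.H634R3.PPC.Central
import Pool.Agent.H771R2.Dens

set_option autoImplicit false

/-!
# Density zero theorems for orders of projective planes with collineations
-/

namespace Pool.Agent.H634R3.PPC

open Configuration Configuration.ProjectivePlane Filter Topology Pool.Agent.H771R2.Dens

/-- a quadratic non-residue modulo an odd prime -/
theorem exists_nonres {q : ℕ} (hq : q.Prime) (hq2 : 2 < q) :
    ∃ a : ZMod q, IsUnit a ∧ a ^ ((q - 1) / 2) = -1 := by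
  have : Fact q.Prime := ⟨hq⟩
  have h2 : ringChar (ZMod q) ≠ 2 := by
    rw [ZMod.ringChar_zmod_n]
    omega
  obtain ⟨a, ha⟩ := FiniteField.exists_nonsquare h2
  have ha0 : a ≠ 0 := by
    rintro rfl
    exact ha IsSquare.zero
  refine ⟨a, isUnit_iff_ne_zero.2 ha0, ?_⟩
  have h3 := ZMod.pow_div_two_eq_neg_one_or_one q ha0
  have h4 : q / 2 = (q - 1) / 2 := by
    have := hq.odd_of_ne_two (by omega)
    obtain ⟨k, hk⟩ := this
    omega
  rw [h4] at h3
  rcases h3 with h3 | h3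
  · exfalso
    apply ha
    rw [← h4] at h3
    exact (ZMod.euler_criterion q ha0).2 h3
  · exact h3

/-- a plane of order `n` with a collineation of order `q` with an even number of fixed points -/
def HasColl (q n : ℕ) : Prop :=
  ∃ (P L : Type) (_ : Finite P) (_ : Finite L) (_ : Membership P L) (_ : ProjectivePlane P L)
    (σ : Equiv.Perm P) (τ : Equiv.Perm L), order P L = n ∧ (∀ p l, σ p ∈ τ l ↔ p ∈ l) ∧
      orderOf σ = q ∧ Even (Nat.card {p // σ p = p})

theorem density_coll {q : ℕ} (hq : q.Prime) (hq2 : q ≠ 2) :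
    Tendsto (fun N : ℕ => (cnt (fun n => HasColl q n) N : ℝ) / N) atTop (𝓝 0) := by
  have hq3 : 2 < q := by
    have := hq.two_le
    omega
  have : NeZero q := ⟨hq.ne_zero⟩
  obtain ⟨a, ha, ha2⟩ := exists_nonres hq hq3
  refine tendsto_zero _ (fun p => (p : ZMod 1) = 1) (fun _ => 0) (fun _ r => (r : ZMod q) = a)
    (big_ap isUnit_one) (fun _ _ _ => big_ap ha) ?_
  rintro n ⟨P, L, _, _, _, _, σ, τ, hn, hinc, ho, hev⟩ q' _ _ _ r hr hra hrn hrn2
  refine plane_test' σ τ hinc hq hq3 ?_ hev hr (j := (q - 1) / 2) ?_ (hn ▸ hrn) (hn ▸ hrn2)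
  · rw [← ho]
    exact pow_orderOf_eq_one σ
  · rw [hra]
    exact ha2

/-- a plane of order `n` which is `(C, a)`-transitive for some flag `(C, a)` -/
def HasFlagTrans (n : ℕ) : Prop :=
  ∃ (P L : Type) (_ : Finite P) (_ : Finite L) (_ : Membership P L) (_ : ProjectivePlane P L)
    (C : P) (a : L), order P L = n ∧ C ∈ a ∧ CentreAxisTransitive C a

/-- a plane of order `n` which is `(C, a)`-transitive for some antiflag `(C, a)` -/
def HasAntiflagTrans (n : ℕ) : Prop :=
  ∃ (P L : Type) (_ : Finite P) (_ : Finite L) (_ : Membership P L) (_ : ProjectivePlane P L)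
    (C : P) (a : L), order P L = n ∧ C ∉ a ∧ CentreAxisTransitive C a

theorem nonres_all : ∃ a : (q : ℕ) → ZMod q, ∀ q : ℕ, q.Prime → 2 < q →
    IsUnit (a q) ∧ (a q) ^ ((q - 1) / 2) = -1 := by
  have h2 : ∀ q : ℕ, ∃ a : ZMod q, q.Prime → 2 < q → IsUnit a ∧ a ^ ((q - 1) / 2) = -1 := by
    intro q
    by_cases hq : q.Prime ∧ 2 < q
    · obtain ⟨a, ha⟩ := exists_nonres hq.1 hq.2
      exact ⟨a, fun _ _ => ha⟩
    · exact ⟨0, fun h h' => absurd ⟨h, h'⟩ hq⟩
  choose a ha using h2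
  exact ⟨a, ha⟩

theorem density_flag :
    Tendsto (fun N : ℕ => (cnt (fun n => Odd n ∧ HasFlagTrans n) N : ℝ) / N) atTop (𝓝 0) := by
  classical
  obtain ⟨a, ha⟩ := nonres_all
  refine tendsto_zero _ (fun q => (q : ZMod 1) = 1 ∧ 2 < q) (fun _ => 0)
    (fun q r => (r : ZMod q) = a q) ((big_ap isUnit_one).large 2) ?_ ?_
  · intro q hq hq'
    have : NeZero q := ⟨hq.ne_zero⟩
    exact big_ap (ha q hq hq'.2).1
  · rintro n ⟨hodd, P, L, _, _, _, _, C, l, hn, hCl, htr⟩ q hq ⟨_, hq2⟩ hnc r hr hra hrn hrn2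
    have h1 := card_centralGroup htr
    rw [if_pos hCl, add_zero] at h1
    refine central_test (C := C) (a := l) hq hq2 ?_ ?_ hr (j := (q - 1) / 2) ?_ (hn ▸ hrn)
      (hn ▸ hrn2)
    · rw [h1, hn]
      exact Nat.dvd_of_mod_eq_zero (by rw [hnc]; simp)
    · rw [if_pos hCl, add_zero, hn]
      exact hodd.add_one
    · rw [hra]
      exact (ha q hq hq2).2

theorem density_antiflag :
    Tendsto (fun N : ℕ => (cnt (fun n => Even n ∧ HasAntiflagTrans n) N : ℝ) / N)
      atTop (𝓝 0) := by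
  classical
  obtain ⟨a, ha⟩ := nonres_all
  refine tendsto_zero _ (fun q => (q : ZMod 1) = 1 ∧ 2 < q) (fun _ => 1)
    (fun q r => (r : ZMod q) = a q) ((big_ap isUnit_one).large 2) ?_ ?_
  · intro q hq hq'
    have : NeZero q := ⟨hq.ne_zero⟩
    exact big_ap (ha q hq hq'.2).1
  · rintro n ⟨heven, P, L, _, _, _, _, C, l, hn, hCl, htr⟩ q hq ⟨_, hq2⟩ hnc r hr hra hrn hrn2
    have h1 := card_centralGroup htr
    have h2 := one_lt_order P L
    rw [if_neg hCl] at h1
    refine central_test (C := C) (a := l) hq hq2 ?_ ?_ hr (j := (q - 1) / 2) ?_ (hn ▸ hrn)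
      (hn ▸ hrn2)
    · have h3 : Nat.card (centralGroup C l) = n - 1 := by omega
      rw [h3]
      exact (Nat.modEq_iff_dvd' (by omega)).1 (show 1 ≡ n [MOD q] from hnc.symm)
    · rw [if_neg hCl, hn]
      exact (heven.add_one).add_one
    · rw [hra]
      exact (ha q hq hq2).2

end Pool.Agent.H634R3.PPC
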