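import Mathlib
import Pool.Agent.H634R3.PPC.Solv2
import Pool.Agent.H634R3.PPC.Final

set_option autoImplicit false

/-!
# Density zero for the orders of planes with a solvable point-transitive group
-/

namespace Pool.Agent.H634R3.PPC

open Configuration Configuration.ProjectivePlane Filter Topology Finset Pool.Agent.H771R2.Dens

/-- the density theorem, with conditions modulo `q ^ 2` -/
theorem tendsto_zero2 (S : ℕ → Prop) (Q : ℕ → Prop) (B : ℕ → ℕ → Prop) (R : ℕ → ℕ → Prop)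
    (hQ : Big Q) (hB0 : ∀ q, q.Prime → Q q →
      Per (fun n => ¬ B q n) (q ^ 2) (Real.exp (-(1 / (2 * (q : ℝ))))))
    (hR : ∀ q, q.Prime → Q q → Big (R q))
    (hS : ∀ n, S n → ∀ q, q.Prime → Q q → B q n → ∀ r, r.Prime → R q r → r ∣ n →
      ¬ r ^ 2 ∣ n → False) :
    Tendsto (fun N : ℕ => (cnt S N : ℝ) / N) atTop (𝓝 0) := by
  rw [Metric.tendsto_atTop]
  intro ε hε
  obtain ⟨F, hF, hFε⟩ := exists_exp_small hQ (ε := ε / 4) (by positivity)
  have hcardF : (0 : ℝ) < (F.card : ℝ) + 1 := by positivity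
  have h1 : ∀ q ∈ F, ∃ P : Finset ℕ, (∀ r ∈ P, r.Prime ∧ R q r) ∧
      Real.exp (-(∑ r ∈ P, 1 / (r : ℝ)) / 2) ≤ ε / 4 / (F.card + 1) := fun q hq =>
    exists_exp_small (hR q (hF q hq).1 (hF q hq).2) (by positivity)
  choose! P hP hPε using h1
  have hprod : ∀ P : Finset ℕ, (∏ r ∈ P, Real.exp (-(1 / (2 * (r : ℝ))))) =
      Real.exp (-(∑ r ∈ P, 1 / (r : ℝ)) / 2) := by
    intro P
    rw [← Real.exp_sum, sum_neg_distrib]
    congr 1
    rw [neg_div, sum_div]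
    congr 1
    refine sum_congr rfl fun r _ => ?_
    rw [one_div, one_div, mul_inv, mul_comm, div_eq_mul_inv]
  have hA : Per (fun n => ∀ q ∈ F, ¬ B q n) (∏ q ∈ F, q ^ 2)
      (∏ q ∈ F, Real.exp (-(1 / (2 * (q : ℝ))))) :=
    Per.forall F (fun q n => ¬ B q n) (fun q => q ^ 2) _
      (fun q hq => hB0 q (hF q hq).1 (hF q hq).2) (fun q _ => (Real.exp_pos _).le)
      (fun q hq q' hq' h => ((Nat.coprime_primes (hF q hq).1 (hF q' hq').1).2 h).pow 2 2)
  have hA' : (∏ q ∈ F, Real.exp (-(1 / (2 * (q : ℝ))))) ≤ ε / 4 := by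
    rw [hprod]
    exact hFε
  have hB : ∀ q ∈ F, Per (fun n => ∀ r ∈ P q, ¬ (r ∣ n ∧ ¬ r ^ 2 ∣ n)) (∏ r ∈ P q, r ^ 2)
      (∏ r ∈ P q, Real.exp (-(1 / (2 * (r : ℝ))))) := fun q hq =>
    Per.forall (P q) (fun r n => ¬ (r ∣ n ∧ ¬ r ^ 2 ∣ n)) (fun r => r ^ 2) _
      (fun r hr => per_exact (hP q hq r hr).1) (fun r _ => (Real.exp_pos _).le)
      (fun r hr r' hr' h =>
        ((Nat.coprime_primes (hP q hq r hr).1 (hP q hq r' hr').1).2 h).pow 2 2)
  have hB' : ∀ q ∈ F, (∏ r ∈ P q, Real.exp (-(1 / (2 * (r : ℝ))))) ≤ ε / 4 / (F.card + 1) := by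
    intro q hq
    rw [hprod]
    exact hPε q hq
  have key : ∀ N, cnt S N ≤ cnt (fun n => ∀ q ∈ F, ¬ B q n) N +
      ∑ q ∈ F, cnt (fun n => ∀ r ∈ P q, ¬ (r ∣ n ∧ ¬ r ^ 2 ∣ n)) N := by
    intro N
    classical
    have h2 : cnt S N ≤ ((range N).filter (fun n => ∀ q ∈ F, ¬ B q n) ∪
        F.biUnion (fun q => (range N).filter
          (fun n => ∀ r ∈ P q, ¬ (r ∣ n ∧ ¬ r ^ 2 ∣ n)))).card := by
      apply cnt_le_card
      intro n hn hSn
      rw [mem_union, mem_filter, mem_range, mem_biUnion]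
      by_cases h3 : ∀ q ∈ F, ¬ B q n
      · exact Or.inl ⟨hn, h3⟩
      · push Not at h3
        obtain ⟨q, hq, h4⟩ := h3
        refine Or.inr ⟨q, hq, ?_⟩
        rw [mem_filter, mem_range]
        exact ⟨hn, fun r hr h5 => hS n hSn q (hF q hq).1 (hF q hq).2 h4 r (hP q hq r hr).1
          (hP q hq r hr).2 h5.1 h5.2⟩
    refine h2.trans ((card_union_le _ _).trans ?_)
    refine add_le_add (le_of_eq ?_) (card_biUnion_le.trans (sum_le_sum fun q _ => le_of_eq ?_))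
    · unfold cnt
      congr
    · unfold cnt
      congr
  set K : ℝ := ((∏ q ∈ F, q ^ 2 : ℕ) : ℝ) + ∑ q ∈ F, ((∏ r ∈ P q, r ^ 2 : ℕ) : ℝ) with hK
  have key2 : ∀ N : ℕ, (cnt S N : ℝ) ≤ ε / 2 * N + K := by
    intro N
    have h2 : (cnt S N : ℝ) ≤ (cnt (fun n => ∀ q ∈ F, ¬ B q n) N : ℝ) +
        ∑ q ∈ F, (cnt (fun n => ∀ r ∈ P q, ¬ (r ∣ n ∧ ¬ r ^ 2 ∣ n)) N : ℝ) := by
      exact_mod_cast key N
    have h3 := hA.count N
    have h4 : ∑ q ∈ F, (cnt (fun n => ∀ r ∈ P q, ¬ (r ∣ n ∧ ¬ r ^ 2 ∣ n)) N : ℝ) ≤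
        ∑ q ∈ F, (ε / 4 / (F.card + 1) * N + ((∏ r ∈ P q, r ^ 2 : ℕ) : ℝ)) := by
      refine sum_le_sum fun q hq => ((hB q hq).count N).trans ?_
      have := mul_le_mul_of_nonneg_right (hB' q hq) (Nat.cast_nonneg (α := ℝ) N)
      linarith
    rw [sum_add_distrib, sum_const, nsmul_eq_mul] at h4
    have h5 := mul_le_mul_of_nonneg_right hA' (Nat.cast_nonneg (α := ℝ) N)
    have h6 : (F.card : ℝ) * (ε / 4 / (F.card + 1) * N) ≤ ε / 4 * N := by
      have : (F.card : ℝ) * (ε / 4 / (F.card + 1) * N) =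
          (ε / 4 * N) * (F.card / (F.card + 1)) := by field_simp
      rw [this]
      apply mul_le_of_le_one_right (by positivity)
      rw [div_le_one hcardF]
      linarith
    linarith
  obtain ⟨N0, hN0⟩ := exists_nat_gt (2 * K / ε)
  refine ⟨N0 + 1, fun N hN => ?_⟩
  have hNpos : (0 : ℝ) < N := by
    have : 0 < N := by omega
    exact_mod_cast this
  have hNN : 2 * K / ε < N := by
    have : (N0 : ℝ) ≤ N := by exact_mod_cast (by omega : N0 ≤ N)
    linarith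
  have hMN : K < ε / 2 * N := by
    rw [div_lt_iff₀ hε] at hNN
    linarith
  rw [Real.dist_eq, sub_zero, abs_of_nonneg (by positivity), div_lt_iff₀ hNpos]
  have := key2 N
  linarith

/-- the event `q ∥ n ^ 2 + n + 1` in one residue class -/
theorem per_root {q c : ℕ} (hq : q.Prime) (hq3 : q ≠ 3) (hc : q ∣ c ^ 2 + c + 1) :
    Per (fun n => ¬ (n % q = c % q ∧ ¬ q ^ 2 ∣ n ^ 2 + n + 1)) (q ^ 2)
      (Real.exp (-(1 / (2 * (q : ℝ))))) := by
  classical
  have hq0 : 0 < q := hq.pos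
  refine ⟨by positivity, fun n => ?_, ?_⟩
  · have e1 : (n + q ^ 2) % q = n % q := by
      rw [sq]; simp
    have e2 : (q ^ 2 ∣ (n + q ^ 2) ^ 2 + (n + q ^ 2) + 1) ↔ q ^ 2 ∣ n ^ 2 + n + 1 := by
      have : (n + q ^ 2) ^ 2 + (n + q ^ 2) + 1 = (n ^ 2 + n + 1) + q ^ 2 * (2 * n + q ^ 2 + 1) := by
        ring
      rw [this]
      exact (Nat.dvd_add_iff_left (dvd_mul_right _ _)).symm
    change ¬ ((n + q ^ 2) % q = c % q ∧ ¬ q ^ 2 ∣ (n + q ^ 2) ^ 2 + (n + q ^ 2) + 1) ↔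
      ¬ (n % q = c % q ∧ ¬ q ^ 2 ∣ n ^ 2 + n + 1)
    rw [e1, e2]
  obtain ⟨c0, hc0⟩ : ∃ c0, c0 = c % q := ⟨_, rfl⟩
  have hc0q : c0 < q := hc0 ▸ Nat.mod_lt _ hq0
  have hroot : (q : ℤ) ∣ (c0 : ℤ) ^ 2 + c0 + 1 := by
    have h1 : ((c0 ^ 2 + c0 + 1 : ℕ)) ≡ c ^ 2 + c + 1 [MOD q] := by
      have : c0 ≡ c [MOD q] := hc0 ▸ Nat.mod_modEq c q
      exact ((this.pow 2).add this).add_right 1
    have h2 : q ∣ c0 ^ 2 + c0 + 1 := (Nat.modEq_zero_iff_dvd.1 (h1.trans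
      (Nat.modEq_zero_iff_dvd.2 hc)))
    exact_mod_cast h2
  have hqZ : Prime (q : ℤ) := Nat.prime_iff_prime_int.1 hq
  have huniq : ∀ i < q, ∀ i' < q, q ^ 2 ∣ (c0 + q * i) ^ 2 + (c0 + q * i) + 1 →
      q ^ 2 ∣ (c0 + q * i') ^ 2 + (c0 + q * i') + 1 → i = i' := by
    intro i hi i' hi' h h'
    have h1 : ((q : ℤ) ^ 2) ∣ ((c0 : ℤ) + q * i) ^ 2 + (c0 + q * i) + 1 := by exact_mod_cast h
    have h2 : ((q : ℤ) ^ 2) ∣ ((c0 : ℤ) + q * i') ^ 2 + (c0 + q * i') + 1 := by exact_mod_cast h'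
    have h3 := dvd_sub h1 h2
    have h4 : ((c0 : ℤ) + q * i) ^ 2 + (c0 + q * i) + 1 - (((c0 : ℤ) + q * i') ^ 2 + (c0 + q * i') + 1)
        = q * (((i : ℤ) - i') * (2 * c0 + 1 + q * (i + i'))) := by ring
    rw [h4, sq] at h3
    have hq00 : (q : ℤ) ≠ 0 := by exact_mod_cast hq0.ne'
    have h5 := (mul_dvd_mul_iff_left hq00).1 h3
    rcases hqZ.dvd_or_dvd h5 with h6 | h6
    · have h7 := Int.eq_zero_of_abs_lt_dvd h6 (by
        rw [abs_lt]
        constructor <;> omega)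
      omega
    · exfalso
      have h7 : (q : ℤ) ∣ 2 * c0 + 1 := by
        have : (2 * (c0 : ℤ) + 1) = (2 * c0 + 1 + q * (i + i')) - q * (i + i') := by ring
        rw [this]
        exact dvd_sub h6 (dvd_mul_right _ _)
      have h8 : (q : ℤ) ∣ 3 := by
        have : (3 : ℤ) = 4 * ((c0 : ℤ) ^ 2 + c0 + 1) - (2 * c0 + 1) * (2 * c0 + 1) := by ring
        rw [this]
        exact dvd_sub (hroot.mul_left 4) (h7.mul_left _)
      have h9 : q ∣ 3 := by exact_mod_cast h8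
      exact hq3 ((Nat.prime_dvd_prime_iff_eq hq Nat.prime_three).1 h9)
  let Gd : Finset ℕ := (range q).filter (fun i => ¬ q ^ 2 ∣ (c0 + q * i) ^ 2 + (c0 + q * i) + 1)
  have hGd : q ≤ Gd.card + 1 := by
    have h1 := card_filter_add_card_filter_not (s := range q)
      (fun i => q ^ 2 ∣ (c0 + q * i) ^ 2 + (c0 + q * i) + 1)
    rw [card_range] at h1
    have h2 : ((range q).filter (fun i => q ^ 2 ∣ (c0 + q * i) ^ 2 + (c0 + q * i) + 1)).card ≤ 1 := by
      rw [card_le_one]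
      intro a ha b hb
      rw [mem_filter, mem_range] at ha hb
      exact huniq a ha.1 b hb.1 ha.2 hb.2
    have h3 : Gd.card = ((range q).filter
      (fun i => ¬ q ^ 2 ∣ (c0 + q * i) ^ 2 + (c0 + q * i) + 1)).card := rfl
    omega
  have h1 : cnt (fun n => ¬ (n % q = c % q ∧ ¬ q ^ 2 ∣ n ^ 2 + n + 1)) (q ^ 2) + (q - 1) ≤
      q ^ 2 := by
    have h3 : cnt (fun n => ¬ (n % q = c % q ∧ ¬ q ^ 2 ∣ n ^ 2 + n + 1)) (q ^ 2) ≤
        ((range (q ^ 2)) \ (Gd.image (fun i => c0 + q * i))).card := by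
      apply cnt_le_card
      intro n hn hn'
      rw [Finset.mem_sdiff, mem_range]
      refine ⟨hn, fun h => hn' ?_⟩
      rw [mem_image] at h
      obtain ⟨i, hi, rfl⟩ := h
      rw [mem_filter] at hi
      refine ⟨?_, hi.2⟩
      rw [Nat.add_mul_mod_self_left, Nat.mod_eq_of_lt hc0q, hc0]
    have h4 : Gd.image (fun i => c0 + q * i) ⊆ range (q ^ 2) := by
      intro n hn
      rw [mem_image] at hn
      obtain ⟨i, hi, rfl⟩ := hn
      rw [mem_filter, mem_range] at hi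
      rw [mem_range, sq]
      have h5 : q * (i + 1) ≤ q * q := Nat.mul_le_mul_left q hi.1
      have h6 : q * (i + 1) = q * i + q := by ring
      omega
    rw [card_sdiff_of_subset h4, card_image_of_injective _ (fun a b h => by
      have h' : c0 + q * a = c0 + q * b := h
      exact Nat.eq_of_mul_eq_mul_left hq0 (Nat.add_left_cancel h')), card_range] at h3
    have h5 : Gd.card ≤ q := by
      have := card_filter_le (range q) (fun i => ¬ q ^ 2 ∣ (c0 + q * i) ^ 2 + (c0 + q * i) + 1)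
      rwa [card_range] at this
    have h6 : q ≤ q ^ 2 := by nlinarith
    omega
  have hr2 : (2 : ℝ) ≤ q := by exact_mod_cast hq.two_le
  have h2 : (cnt (fun n => ¬ (n % q = c % q ∧ ¬ q ^ 2 ∣ n ^ 2 + n + 1)) (q ^ 2) : ℝ) + (q - 1) ≤
      (q : ℝ) ^ 2 := by
    have h := (Nat.cast_le (α := ℝ)).2 h1
    push_cast [Nat.cast_sub hq.one_lt.le] at h
    exact h
  have hr' : (0 : ℝ) < q := by linarith
  have h3 := Real.add_one_le_exp (-(1 / (2 * (q : ℝ))))
  have h4 : (q : ℝ) ^ 2 - (q - 1) ≤ (-(1 / (2 * (q : ℝ))) + 1) * (q : ℝ) ^ 2 := by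
    have : (-(1 / (2 * (q : ℝ))) + 1) * (q : ℝ) ^ 2 = q ^ 2 - q / 2 := by field_simp; ring
    rw [this]
    linarith
  calc (cnt (fun n => ¬ (n % q = c % q ∧ ¬ q ^ 2 ∣ n ^ 2 + n + 1)) (q ^ 2) : ℝ) ≤
      (q : ℝ) ^ 2 - (q - 1) := by linarith
    _ ≤ (-(1 / (2 * (q : ℝ))) + 1) * (q : ℝ) ^ 2 := h4
    _ ≤ Real.exp (-(1 / (2 * (q : ℝ)))) * (q : ℝ) ^ 2 := mul_le_mul_of_nonneg_right h3 (by positivity)
    _ = _ := by push_cast; ring

/-- a root of `x ^ 2 + x + 1` modulo a prime `1` modulo `3` -/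
theorem exists_root {q : ℕ} (hq : q.Prime) (h3 : (q : ZMod 3) = 1) : ∃ c : ℕ, q ∣ c ^ 2 + c + 1 := by
  have : Fact q.Prime := ⟨hq⟩
  have h1 : 3 ∣ q - 1 := by
    rw [← ZMod.natCast_eq_zero_iff, Nat.cast_sub hq.one_lt.le, h3]
    simp
  have : Fact (Nat.Prime 3) := ⟨Nat.prime_three⟩
  obtain ⟨u, hu⟩ := exists_prime_orderOf_dvd_card (G := (ZMod q)ˣ) 3 (by
    rw [ZMod.card_units_eq_totient, Nat.totient_prime hq]
    exact h1)
  have h2 : u ^ 3 = 1 := hu ▸ pow_orderOf_eq_one u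
  have h4 : u ≠ 1 := by
    rintro rfl
    rw [orderOf_one] at hu
    omega
  have h5 : ((u : ZMod q)) ^ 3 = 1 := by
    rw [← Units.val_pow_eq_pow_val, h2, Units.val_one]
  have h6 : (u : ZMod q) - 1 ≠ 0 := by
    intro h
    apply h4
    apply Units.ext
    rw [sub_eq_zero] at h
    rw [h, Units.val_one]
  have h7 : ((u : ZMod q)) ^ 2 + u + 1 = 0 := by
    apply mul_left_cancel₀ h6
    linear_combination h5
  refine ⟨(u : ZMod q).val, ?_⟩
  rw [← ZMod.natCast_eq_zero_iff]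
  push_cast
  rw [ZMod.natCast_zmod_val]
  exact h7

/-- a plane of order `n` with a finite solvable group of collineations transitive on the points -/
def HasSolvTrans (n : ℕ) : Prop :=
  ∃ (P L : Type) (_ : Finite P) (_ : Finite L) (_ : Membership P L) (_ : ProjectivePlane P L)
    (G : Type) (_ : Group G) (_ : Finite G) (_ : MulAction G P) (_ : MulAction G L),
    Group.IsSolvable G ∧ order P L = n ∧ (∀ (g : G) (p : P) (l : L), g • p ∈ g • l ↔ p ∈ l) ∧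
      ∀ x y : P, ∃ g : G, g • x = y

theorem plane_des {P L : Type} [Fintype P] [Fintype L] [Membership P L] [ProjectivePlane P L] :
    Des (fun (p : P) (l : L) => p ∈ l) (order P L) 1 where
  row := fun x z => by
    have := card_common_lines (L := L) x z
    convert this
  col := fun l m => by
    have := card_common_points (P := P) l m
    convert this
  card := card_points_eq_card_lines P L
  npos := by have := one_lt_order P L; omega

theorem density_solv :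
    Tendsto (fun N : ℕ => (cnt (fun n => HasSolvTrans n) N : ℝ) / N) atTop (𝓝 0) := by
  classical
  obtain ⟨a, ha⟩ := nonres_all
  have hc : ∃ c : ℕ → ℕ, ∀ q : ℕ, q.Prime → (q : ZMod 3) = 1 → q ∣ c q ^ 2 + c q + 1 := by
    have h2 : ∀ q : ℕ, ∃ c : ℕ, q.Prime → (q : ZMod 3) = 1 → q ∣ c ^ 2 + c + 1 := by
      intro q
      by_cases hq : q.Prime ∧ (q : ZMod 3) = 1
      · obtain ⟨c, hc⟩ := exists_root hq.1 hq.2
        exact ⟨c, fun _ _ => hc⟩
      · exact ⟨0, fun h h' => absurd ⟨h, h'⟩ hq⟩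
    choose c hc using h2
    exact ⟨c, hc⟩
  obtain ⟨c, hc⟩ := hc
  have hne3 : ∀ q : ℕ, (q : ZMod 3) = 1 → q ≠ 3 := by
    rintro q hq rfl
    revert hq
    decide
  have hgt2 : ∀ q : ℕ, q.Prime → (q : ZMod 3) = 1 → 2 < q := by
    intro q hq h
    have := hq.two_le
    rcases this.eq_or_lt with h2 | h2
    · rw [← h2] at h
      exact absurd h (by decide)
    · exact h2
  refine tendsto_zero2 _ (fun q => (q : ZMod 3) = 1)
    (fun q n => n % q = c q % q ∧ ¬ q ^ 2 ∣ n ^ 2 + n + 1)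
    (fun q r => (r : ZMod q) = a q) (big_ap isUnit_one)
    (fun q hq hq' => per_root hq (hne3 q hq') (hc q hq hq')) ?_ ?_
  · intro q hq hq'
    have : NeZero q := ⟨hq.ne_zero⟩
    exact big_ap (ha q hq (hgt2 q hq hq')).1
  · rintro n ⟨P, L, _, _, _, _, G, _, _, _, _, hsol, hn, hinc, htr⟩ q hq hq' ⟨hnc, hqn⟩ r hr hra
      hrn hrn2
    have : Fintype P := Fintype.ofFinite P
    have : Fintype L := Fintype.ofFinite L
    have : Fintype G := Fintype.ofFinite G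
    have hcard := card_points P L
    rw [hn] at hcard
    obtain ⟨u, hu⟩ := hrn
    refine solv_test hsol (plane_des (P := P) (L := L)) hinc htr hq (hgt2 q hq hq') ?_ ?_ ?_ hr
      (j := (q - 1) / 2) ?_ odd_one (u := u) ?_ (hn.trans (by rw [hu, pow_one]))
    · rw [hcard]
      have h1 : n ≡ c q [MOD q] := hnc
      exact Nat.modEq_zero_iff_dvd.1 ((((h1.pow 2).add h1).add_right 1).trans
        (Nat.modEq_zero_iff_dvd.2 (hc q hq hq')))
    · rw [hcard]
      exact hqn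
    · rw [hcard]
      have : n ^ 2 + n = n * (n + 1) := by ring
      rw [this]
      exact (Nat.even_mul_succ_self _).add_one
    · rw [hra]
      exact (ha q hq (hgt2 q hq hq')).2
    · rintro ⟨w, rfl⟩
      apply hrn2
      rw [hu]
      exact ⟨w, by ring⟩

end Pool.Agent.H634R3.PPC
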